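import Pool.Agent.TH109.CG2.Build

/-!
Algebra of tori whose weights are zero, primitive, or twice a basis vector.
-/

open Module Pool.Agent.H842R4 Pool.Agent.H842R4.Calc

noncomputable section

namespace Pool.Agent.TH109.CG2

variable {P 𝔤 : Type} [NormedAddCommGroup 𝔤] [InnerProductSpace ℝ 𝔤]

section conj

variable (K : Calc P 𝔤)

theorem br_skew (Z u v : 𝔤) : inner ℝ (K.br Z u) v = - inner ℝ u (K.br Z v) := by
  rw [K.br_anti Z u, inner_neg_left, K.ad_inv]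

theorem br_self_inner (Z u : 𝔤) : inner ℝ (K.br Z u) u = (0 : ℝ) := by
  have h := br_skew K Z u u
  rw [real_inner_comm] at h
  have h2 : inner ℝ (K.br Z u) u = inner ℝ u (K.br Z u) := real_inner_comm _ _
  linarith

/-- uniqueness for `w' = [Z, w]` -/
theorem uniq (Z : 𝔤) (w : ℝ → 𝔤) (hw : ∀ s, HasDerivAt w (K.br Z (w s)) s) (h0 : w 0 = 0)
    (s : ℝ) : w s = 0 := by
  have h1 : ∀ s, HasDerivAt (fun u => (inner ℝ (w u) (w u) : ℝ)) 0 s := by
    intro s
    have h2 := (hw s).inner ℝ (hw s)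
    have h3 : inner ℝ (w s) (K.br Z (w s)) + inner ℝ (K.br Z (w s)) (w s) = (0 : ℝ) := by
      rw [real_inner_comm, br_self_inner, add_zero]
    rw [h3] at h2
    exact h2
  have h2 := is_const_of_deriv_eq_zero (fun s => (h1 s).differentiableAt) (fun s => (h1 s).deriv)
    s 0
  simp only [h0, inner_zero_left] at h2
  exact inner_self_eq_zero.1 h2

theorem Ad_add (Z : 𝔤) (s : ℝ) (A B : 𝔤) : K.Ad Z s (A + B) = K.Ad Z s A + K.Ad Z s B := by
  have h := uniq K Z (fun s => K.Ad Z s (A + B) - (K.Ad Z s A + K.Ad Z s B)) (fun s => by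
    have := (K.Ad_der Z (A + B) s).sub ((K.Ad_der Z A s).add (K.Ad_der Z B s))
    rw [← map_add, ← map_sub] at this
    exact this) (by simp [K.Ad_zero]) s
  exact sub_eq_zero.1 h

theorem Ad_smul (Z : 𝔤) (s c : ℝ) (A : 𝔤) : K.Ad Z s (c • A) = c • K.Ad Z s A := by
  have h := uniq K Z (fun s => K.Ad Z s (c • A) - c • K.Ad Z s A) (fun s => by
    have := (K.Ad_der Z (c • A) s).sub ((K.Ad_der Z A s).const_smul c)
    rw [← map_smul, ← map_sub] at this
    exact this) (by simp [K.Ad_zero]) s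
  exact sub_eq_zero.1 h

theorem Ad_Ad (Z : 𝔤) (s t : ℝ) (A : 𝔤) : K.Ad Z s (K.Ad Z t A) = K.Ad Z (s + t) A := by
  have h := uniq K Z (fun s => K.Ad Z s (K.Ad Z t A) - K.Ad Z (s + t) A) (fun s => by
    have h1 : HasDerivAt (fun u => K.Ad Z (u + t) A) (K.br Z (K.Ad Z (s + t) A)) s :=
      (K.Ad_der Z A (s + t)).comp_add_const s t
    have := (K.Ad_der Z (K.Ad Z t A) s).sub h1
    rw [← map_sub] at this
    exact this) (by simp [K.Ad_zero]) s
  exact sub_eq_zero.1 h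

theorem Ad_neg_arg (Z : 𝔤) (s : ℝ) (A : 𝔤) : K.Ad Z s (-A) = - K.Ad Z s A := by
  have := Ad_smul K Z s (-1) A
  rwa [neg_one_smul, neg_one_smul] at this

theorem Ad_inv1 (Z : 𝔤) (s : ℝ) (A : 𝔤) : K.Ad Z (-s) (K.Ad Z s A) = A := by
  rw [Ad_Ad, neg_add_cancel, K.Ad_zero]

theorem Ad_inv2 (Z : 𝔤) (s : ℝ) (A : 𝔤) : K.Ad Z s (K.Ad Z (-s) A) = A := by
  rw [Ad_Ad, add_neg_cancel, K.Ad_zero]

/-- rotation -/
theorem Ad_rot (Z A B : 𝔤) (h1 : K.br Z A = (2 : ℝ) • B) (h2 : K.br Z B = -((2 : ℝ) • A)) (s : ℝ) :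
    K.Ad Z s A = Real.cos (2 * s) • A + Real.sin (2 * s) • B := by
  have hcos : ∀ s : ℝ, HasDerivAt (fun u => Real.cos (2 * u)) (-(2 * Real.sin (2 * s))) s := by
    intro s
    have := ((hasDerivAt_id s).const_mul 2).cos
    simp only [id, mul_one] at this
    refine this.congr_deriv ?_
    ring
  have hsin : ∀ s : ℝ, HasDerivAt (fun u => Real.sin (2 * u)) (2 * Real.cos (2 * s)) s := by
    intro s
    have := ((hasDerivAt_id s).const_mul 2).sin
    simp only [id, mul_one] at this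
    refine this.congr_deriv ?_
    ring
  have h := uniq K Z (fun s => K.Ad Z s A - (Real.cos (2 * s) • A + Real.sin (2 * s) • B))
    (fun s => by
      have h3 := (K.Ad_der Z A s).sub (((hcos s).smul_const A).add ((hsin s).smul_const B))
      refine h3.congr_deriv ?_
      rw [map_sub, map_add, map_smul, map_smul, h1, h2]
      module) (by simp [K.Ad_zero]) s
  exact sub_eq_zero.1 h

theorem Ad_quarter (Z A B : 𝔤) (h1 : K.br Z A = (2 : ℝ) • B) (h2 : K.br Z B = -((2 : ℝ) • A)) :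
    K.Ad Z (Real.pi / 4) A = B := by
  rw [Ad_rot K Z A B h1 h2]
  have : 2 * (Real.pi / 4) = Real.pi / 2 := by ring
  rw [this, Real.cos_pi_div_two, Real.sin_pi_div_two, zero_smul, one_smul, zero_add]

end conj

/-- weight equations -/
def Wt (K : Calc P 𝔤) (X Y : 𝔤) (m n : ℝ) (A B : 𝔤) : Prop :=
  K.br X A = m • B ∧ K.br X B = -(m • A) ∧ K.br Y A = n • B ∧ K.br Y B = -(n • A)

/-- the weights of the torus are zero, primitive, or twice a basis vector, in the last case with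
the coroot condition -/
def GoodW (K : Calc P 𝔤) (X Y : 𝔤) : Prop :=
  ∀ (m n : ℤ) (A B : 𝔤), A ≠ 0 → Wt K X Y m n A B →
    (m = 0 ∧ n = 0) ∨ IsCoprime m n ∨
      (n = 0 ∧ (m = 2 ∨ m = -2) ∧ ∃ c : ℝ, K.br A B = c • X) ∨
      (m = 0 ∧ (n = 2 ∨ n = -2) ∧ ∃ c : ℝ, K.br A B = c • Y)

/-- a closed torus with good weights -/
structure Pair (K : Calc P 𝔤) (X Y : 𝔤) : Prop where
  clX : K.Cl X
  clY : K.Cl Y
  brXY : K.br X Y = 0
  ind : LinearIndependent ℝ ![X, Y]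
  good : GoodW K X Y

variable {K : Calc P 𝔤}

theorem Wt.swap {X Y A B : 𝔤} {m n : ℝ} (h : Wt K X Y m n A B) : Wt K Y X n m A B :=
  ⟨h.2.2.1, h.2.2.2, h.1, h.2.1⟩

theorem GoodW.swap {X Y : 𝔤} (h : GoodW K X Y) : GoodW K Y X := by
  intro m n A B hA hw
  rcases h n m A B hA hw.swap with h1 | h1 | h1 | h1
  · exact Or.inl ⟨h1.2, h1.1⟩
  · exact Or.inr (Or.inl h1.symm)
  · exact Or.inr (Or.inr (Or.inr h1))
  · exact Or.inr (Or.inr (Or.inl h1))

theorem Pair.swap {X Y : 𝔤} (h : Pair K X Y) : Pair K Y X where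
  clX := h.clY
  clY := h.clX
  brXY := by rw [K.br_anti, h.brXY, neg_zero]
  ind := by
    have h1 := LinearIndependent.pair_iff.1 h.ind
    rw [LinearIndependent.pair_iff]
    intro s t hst
    rw [add_comm] at hst
    exact (h1 t s hst).symm
  good := h.good.swap

theorem Pair.ne {X Y : 𝔤} (h : Pair K X Y) : X ≠ 0 := by
  rintro rfl
  have := (LinearIndependent.pair_iff.1 h.ind 1 0 (by simp)).1
  exact one_ne_zero this

theorem Wt.ad {X Y A B : 𝔤} {m n : ℝ} (Z : 𝔤) (s : ℝ)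
    (h : Wt K (K.Ad Z s X) (K.Ad Z s Y) m n A B) :
    Wt K X Y m n (K.Ad Z (-s) A) (K.Ad Z (-s) B) := by
  have key : ∀ U V : 𝔤, K.br U (K.Ad Z (-s) V) = K.Ad Z (-s) (K.br (K.Ad Z s U) V) := by
    intro U V
    rw [← K.Ad_br, Ad_inv1]
  refine ⟨?_, ?_, ?_, ?_⟩
  · rw [key, h.1, Ad_smul]
  · rw [key, h.2.1, Ad_neg_arg, Ad_smul]
  · rw [key, h.2.2.1, Ad_smul]
  · rw [key, h.2.2.2, Ad_neg_arg, Ad_smul]

theorem Pair.ad {X Y : 𝔤} (h : Pair K X Y) (Z : 𝔤) (s : ℝ) :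
    Pair K (K.Ad Z s X) (K.Ad Z s Y) where
  clX := K.Ad_cl Z s X h.clX
  clY := K.Ad_cl Z s Y h.clY
  brXY := by
    rw [K.Ad_br, h.brXY]
    exact K.Ad_fix Z s 0 (map_zero _)
  ind := by
    have h1 := LinearIndependent.pair_iff.1 h.ind
    rw [LinearIndependent.pair_iff]
    intro a b hab
    refine h1 a b ?_
    rw [← Ad_smul, ← Ad_smul, ← Ad_add] at hab
    have h2 := congrArg (K.Ad Z (-s)) hab
    rw [Ad_inv1] at h2
    rw [h2]
    exact K.Ad_fix Z (-s) 0 (map_zero _)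
  good := by
    intro m n A B hA hw
    have hA' : K.Ad Z (-s) A ≠ 0 := by
      intro h0
      apply hA
      rw [← Ad_inv2 K Z s A, h0]
      exact K.Ad_fix Z s 0 (map_zero _)
    have key : ∀ (c : ℝ) (U : 𝔤), K.br (K.Ad Z (-s) A) (K.Ad Z (-s) B) = c • U →
        K.br A B = c • K.Ad Z s U := by
      intro c U hU
      rw [K.Ad_br] at hU
      rw [← Ad_smul, ← hU, Ad_inv2]
    rcases h.good m n _ _ hA' (hw.ad Z s) with h1 | h1 | ⟨h1, h2, c, h3⟩ | ⟨h1, h2, c, h3⟩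
    · exact Or.inl h1
    · exact Or.inr (Or.inl h1)
    · exact Or.inr (Or.inr (Or.inl ⟨h1, h2, c, key c X h3⟩))
    · exact Or.inr (Or.inr (Or.inr ⟨h1, h2, c, key c Y h3⟩))

/-- `su(2)`-triples -/
structure Tri (K : Calc P 𝔤) (e1 e2 e3 : 𝔤) : Prop where
  h12 : K.br e1 e2 = (2 : ℝ) • e3
  h23 : K.br e2 e3 = (2 : ℝ) • e1
  h31 : K.br e3 e1 = (2 : ℝ) • e2

theorem Tri.cyc {e1 e2 e3 : 𝔤} (h : Tri K e1 e2 e3) : Tri K e2 e3 e1 := ⟨h.h23, h.h31, h.h12⟩

theorem Pair.rot {X Y e2 e3 : 𝔤} (h : Pair K X Y) (ht : Tri K X e2 e3) (hY : K.br Y e3 = 0) :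
    Pair K e2 Y := by
  have h1 := h.ad e3 (Real.pi / 4)
  have h2 : K.Ad e3 (Real.pi / 4) X = e2 := by
    refine Ad_quarter K e3 X e2 ht.h31 ?_
    rw [K.br_anti, ht.h23]
  have h3 : K.Ad e3 (Real.pi / 4) Y = Y := K.Ad_fix _ _ _ (by rw [K.br_anti, hY, neg_zero])
  rwa [h2, h3] at h1

theorem wt_even_zero {X Y : 𝔤} (h : Pair K X Y) {m n : ℤ} {A B : 𝔤} (hw : Wt K X Y m n A B)
    (h0 : ¬ (m = 0 ∧ n = 0)) (hc : ¬ IsCoprime m n) (h2 : ¬ (n = 0 ∧ (m = 2 ∨ m = -2)))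
    (h3 : ¬ (m = 0 ∧ (n = 2 ∨ n = -2))) : A = 0 := by
  by_contra hA
  rcases h.good m n A B hA hw with h1 | h1 | h1 | h1
  · exact h0 h1
  · exact hc h1
  · exact h2 ⟨h1.1, h1.2.1⟩
  · exact h3 ⟨h1.1, h1.2.1⟩

theorem Wt.neg {X Y A B : 𝔤} {m n : ℝ} (h : Wt K X Y m n A B) : Wt K X Y m n B (-A) := by
  refine ⟨?_, ?_, ?_, ?_⟩
  · rw [h.2.1, smul_neg]
  · rw [map_neg, h.1]
  · rw [h.2.2.2, smul_neg]
  · rw [map_neg, h.2.2.1]

theorem Wt.add {X Y A B A' B' : 𝔤} {m n : ℝ} (h : Wt K X Y m n A B) (h' : Wt K X Y m n A' B') :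
    Wt K X Y m n (A + A') (B + B') := by
  refine ⟨?_, ?_, ?_, ?_⟩
  · rw [map_add, h.1, h'.1, smul_add]
  · rw [map_add, h.2.1, h'.2.1, smul_add, neg_add]
  · rw [map_add, h.2.2.1, h'.2.2.1, smul_add]
  · rw [map_add, h.2.2.2, h'.2.2.2, smul_add, neg_add]

/-- the coroot condition for weight `(2, 0)` -/
theorem coroot {X Y A B : 𝔤} (h : Pair K X Y) (hw : Wt K X Y 2 0 A B) :
    ∃ c : ℝ, K.br A B = c • X := by
  by_cases hA : A = 0
  · exact ⟨0, by rw [hA, map_zero, LinearMap.zero_apply, zero_smul]⟩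
  have hw' : Wt K X Y ((2 : ℤ) : ℝ) ((0 : ℤ) : ℝ) A B := by
    norm_num
    exact hw
  rcases h.good 2 0 A B hA hw' with h1 | h1 | h1 | h1
  · exact absurd h1.1 (by norm_num)
  · exfalso
    obtain ⟨a, b, hab⟩ := h1
    omega
  · exact h1.2.2
  · exact absurd h1.1 (by norm_num)

theorem wt_inner {X Y A C D : 𝔤} (hC : Wt K X Y 2 0 C D) :
    inner ℝ (K.br A D) X = 2 * (inner ℝ A C : ℝ) := by
  rw [K.ad_inv, K.br_anti D X, hC.2.1, neg_neg, real_inner_smul_right]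

/-- multiplicity one -/
theorem mult_one {X Y A J C C' : 𝔤} (h : Pair K X Y) (hA0 : A ≠ 0) (hA : Wt K X Y 2 0 A J)
    (hC : Wt K X Y 2 0 C C') (o1 : inner ℝ C A = (0 : ℝ)) (o2 : inner ℝ C J = (0 : ℝ)) :
    C = 0 := by
  have hX := h.ne
  have hXX : (inner ℝ X X : ℝ) ≠ 0 := inner_self_ne_zero.2 hX
  obtain ⟨c, hc⟩ := coroot h hA
  have hc0 : c ≠ 0 := by
    rintro rfl
    have h1 := wt_inner (A := A) hA
    rw [hc, zero_smul, inner_zero_left] at h1
    have h2 : (inner ℝ A A : ℝ) ≠ 0 := inner_self_ne_zero.2 hA0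
    apply h2
    linarith
  -- polarisation
  have pol : ∀ D D' : 𝔤, Wt K X Y 2 0 D D' → inner ℝ A D = (0 : ℝ) →
      K.br A D' + K.br D J = 0 := by
    intro D D' hD oD
    obtain ⟨c1, h1⟩ := coroot h (hA.add hD)
    obtain ⟨c2, h2⟩ := coroot h hD
    have h3 : K.br A D' + K.br D J = (c1 - c - c2) • X := by
      have h4 : K.br (A + D) (J + D') = K.br A J + K.br D D' + (K.br A D' + K.br D J) := by
        simp only [map_add, LinearMap.add_apply]
        abel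
      rw [h1, hc, h2] at h4
      rw [sub_smul, sub_smul, h4]
      abel
    have h5 : inner ℝ (K.br A D' + K.br D J) X = (0 : ℝ) := by
      rw [inner_add_left, wt_inner hD, wt_inner hA, real_inner_comm A D, oD]
      ring
    rw [h3, real_inner_smul_left] at h5
    rw [h3, (mul_eq_zero.1 h5).resolve_right hXX, zero_smul]
  have oAC : inner ℝ A C = (0 : ℝ) := by rw [real_inner_comm]; exact o1
  have oAC' : inner ℝ A C' = (0 : ℝ) := by
    have h1 : inner ℝ A ((2 : ℝ) • C') = (0 : ℝ) := by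
      have h2 := br_skew K X A C
      rw [hA.1, real_inner_smul_left, real_inner_comm C J, o2] at h2
      rw [← hC.1]
      linarith
    rw [real_inner_smul_right] at h1
    linarith
  have e1 := pol C C' hC oAC
  have e2 := pol C' (-C) hC.neg oAC'
  rw [map_neg] at e2
  -- `P = [A, C]`, `Q = [A, C']`
  have w1 : Wt K X Y ((4 : ℤ) : ℝ) ((0 : ℤ) : ℝ) (K.br A C) (K.br A C') := by
    have e1' : K.br J C = K.br A C' := by
      rw [K.br_anti J C]
      exact (eq_neg_of_add_eq_zero_left e1).symm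
    have e2' : K.br J C' = - K.br A C := by
      rw [K.br_anti J C']
      congr 1
      exact (neg_add_eq_zero.1 e2).symm
    refine ⟨?_, ?_, ?_, ?_⟩
    · rw [K.jac, hA.1, hC.1, map_smul, map_smul, LinearMap.smul_apply, e1']
      push_cast
      module
    · rw [K.jac, hA.1, hC.2.1, map_smul, map_neg, map_smul, LinearMap.smul_apply, e2']
      push_cast
      module
    · rw [K.jac, hA.2.2.1, hC.2.2.1]
      simp
    · rw [K.jac, hA.2.2.1, hC.2.2.2]
      simp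
  have hP : K.br A C = 0 := wt_even_zero h w1 (by norm_num)
    (by rintro ⟨a, b, hab⟩; omega) (by norm_num) (by norm_num)
  have hQ : K.br A C' = 0 := by
    have h1 := w1.1
    rw [hP, map_zero] at h1
    push_cast at h1
    exact (smul_eq_zero.1 h1.symm).resolve_left (by norm_num)
  have hJC : K.br C J = 0 := by
    rw [hQ, zero_add] at e1
    exact e1
  have hCA : K.br C A = 0 := by rw [K.br_anti, hP, neg_zero]
  have h6 : K.br C (K.br A J) = 0 := by
    rw [K.jac, hCA, hJC]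
    simp
  rw [hc, map_smul] at h6
  have h7 : K.br C X = 0 := (smul_eq_zero.1 h6).resolve_left hc0
  have h8 : K.br X C = 0 := by rw [K.br_anti, h7, neg_zero]
  have h9 : C' = 0 := by
    have h1 := hC.1
    rw [h8] at h1
    exact (smul_eq_zero.1 h1.symm).resolve_left (by norm_num)
  have h10 := hC.2.1
  rw [h9, map_zero] at h10
  have h11 := neg_eq_zero.1 h10.symm
  exact (smul_eq_zero.1 h11).resolve_left (by norm_num)

/-- existence of the triple -/
theorem exists_tri {X Y A B : 𝔤} (h : Pair K X Y) (hA0 : A ≠ 0) (hw : Wt K X Y 2 0 A B) :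
    ∃ e2 e3 : 𝔤, Tri K X e2 e3 ∧ K.br Y e2 = 0 ∧ K.br Y e3 = 0 := by
  have hX := h.ne
  have hXX : (0 : ℝ) < inner ℝ X X := real_inner_self_pos.2 hX
  have hAA : (0 : ℝ) < inner ℝ A A := real_inner_self_pos.2 hA0
  obtain ⟨c, hc⟩ := coroot h hw
  have hcX : c * inner ℝ X X = 2 * (inner ℝ A A : ℝ) := by
    have h1 := wt_inner (A := A) hw
    rwa [hc, real_inner_smul_left] at h1
  have hc0 : 0 < c := by
    by_contra hcon
    push Not at hcon
    have : c * inner ℝ X X ≤ 0 := mul_nonpos_of_nonpos_of_nonneg hcon hXX.le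
    linarith
  -- scale
  set l : ℝ := √(2 / c) with hl
  have hl2 : l * l * c = 2 := by
    rw [hl, Real.mul_self_sqrt (by positivity)]
    field_simp
  refine ⟨l • A, l • B, ⟨?_, ?_, ?_⟩, ?_, ?_⟩
  · rw [map_smul, hw.1, smul_comm]
  · rw [map_smul, map_smul, LinearMap.smul_apply, hc, smul_smul, smul_smul, hl2]
  · rw [K.br_anti, map_smul, hw.2.1, smul_neg, neg_neg, smul_comm]
  · rw [map_smul, hw.2.2.1, zero_smul, smul_zero]
  · rw [map_smul, hw.2.2.2, zero_smul, neg_zero, smul_zero]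

/-- the two triples commute -/
theorem tri_comm {X Y e2 e3 f2 f3 : 𝔤} (h : Pair K X Y) (hX : Tri K X e2 e3)
    (hY : Tri K Y f2 f3) (y2 : K.br Y e2 = 0) (y3 : K.br Y e3 = 0) (x2 : K.br X f2 = 0)
    (x3 : K.br X f3 = 0) :
    K.br e2 f2 = 0 ∧ K.br e2 f3 = 0 ∧ K.br e3 f2 = 0 ∧ K.br e3 f3 = 0 := by
  have X3 : K.br X e3 = -((2 : ℝ) • e2) := by rw [K.br_anti, hX.h31]
  have Y3 : K.br Y f3 = -((2 : ℝ) • f2) := by rw [K.br_anti, hY.h31]
  have aP : K.br X (K.br e2 f2) = (2 : ℝ) • K.br e3 f2 := by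
    rw [K.jac, hX.h12, x2, map_zero, add_zero, map_smul, LinearMap.smul_apply]
  have aS : K.br X (K.br e3 f2) = -((2 : ℝ) • K.br e2 f2) := by
    rw [K.jac, X3, x2, map_zero, add_zero, map_neg, LinearMap.neg_apply, map_smul,
      LinearMap.smul_apply]
  have aR : K.br X (K.br e2 f3) = (2 : ℝ) • K.br e3 f3 := by
    rw [K.jac, hX.h12, x3, map_zero, add_zero, map_smul, LinearMap.smul_apply]
  have aQ : K.br X (K.br e3 f3) = -((2 : ℝ) • K.br e2 f3) := by
    rw [K.jac, X3, x3, map_zero, add_zero, map_neg, LinearMap.neg_apply, map_smul,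
      LinearMap.smul_apply]
  have bP : K.br Y (K.br e2 f2) = (2 : ℝ) • K.br e2 f3 := by
    rw [K.jac, y2, map_zero, LinearMap.zero_apply, zero_add, hY.h12, map_smul]
  have bR : K.br Y (K.br e2 f3) = -((2 : ℝ) • K.br e2 f2) := by
    rw [K.jac, y2, map_zero, LinearMap.zero_apply, zero_add, Y3, map_neg, map_smul]
  have bS : K.br Y (K.br e3 f2) = (2 : ℝ) • K.br e3 f3 := by
    rw [K.jac, y3, map_zero, LinearMap.zero_apply, zero_add, hY.h12, map_smul]
  have bQ : K.br Y (K.br e3 f3) = -((2 : ℝ) • K.br e3 f2) := by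
    rw [K.jac, y3, map_zero, LinearMap.zero_apply, zero_add, Y3, map_neg, map_smul]
  have w1 : Wt K X Y ((2 : ℤ) : ℝ) ((2 : ℤ) : ℝ) (K.br e2 f2 - K.br e3 f3)
      (K.br e3 f2 + K.br e2 f3) := by
    refine ⟨?_, ?_, ?_, ?_⟩
    · rw [map_sub, aP, aQ]; push_cast; module
    · rw [map_add, aS, aR]; push_cast; module
    · rw [map_sub, bP, bQ]; push_cast; module
    · rw [map_add, bS, bR]; push_cast; module
  have w2 : Wt K X Y ((2 : ℤ) : ℝ) ((-2 : ℤ) : ℝ) (K.br e2 f2 + K.br e3 f3)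
      (K.br e3 f2 - K.br e2 f3) := by
    refine ⟨?_, ?_, ?_, ?_⟩
    · rw [map_add, aP, aQ]; push_cast; module
    · rw [map_sub, aS, aR]; push_cast; module
    · rw [map_add, bP, bQ]; push_cast; module
    · rw [map_sub, bS, bR]; push_cast; module
  have z1 : K.br e2 f2 - K.br e3 f3 = 0 := wt_even_zero h w1 (by norm_num)
    (by rintro ⟨a, b, hab⟩; omega) (by norm_num) (by norm_num)
  have z2 : K.br e2 f2 + K.br e3 f3 = 0 := wt_even_zero h w2 (by norm_num)
    (by rintro ⟨a, b, hab⟩; omega) (by norm_num) (by norm_num)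
  have z3 : K.br e3 f2 + K.br e2 f3 = 0 := by
    have h1 := w1.1
    rw [z1, map_zero] at h1
    push_cast at h1
    exact (smul_eq_zero.1 h1.symm).resolve_left (by norm_num)
  have z4 : K.br e3 f2 - K.br e2 f3 = 0 := by
    have h1 := w2.1
    rw [z2, map_zero] at h1
    push_cast at h1
    exact (smul_eq_zero.1 h1.symm).resolve_left (by norm_num)
  have two : ∀ u : 𝔤, (2 : ℝ) • u = 0 → u = 0 := fun u hu =>
    (smul_eq_zero.1 hu).resolve_left (by norm_num)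
  refine ⟨two _ ?_, two _ ?_, two _ ?_, two _ ?_⟩
  · have : (2 : ℝ) • K.br e2 f2 = (K.br e2 f2 - K.br e3 f3) + (K.br e2 f2 + K.br e3 f3) := by
      module
    rw [this, z1, z2, add_zero]
  · have : (2 : ℝ) • K.br e2 f3 = (K.br e3 f2 + K.br e2 f3) - (K.br e3 f2 - K.br e2 f3) := by
      module
    rw [this, z3, z4, sub_zero]
  · have : (2 : ℝ) • K.br e3 f2 = (K.br e3 f2 + K.br e2 f3) + (K.br e3 f2 - K.br e2 f3) := by
      module
    rw [this, z3, z4, add_zero]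
  · have : (2 : ℝ) • K.br e3 f3 = (K.br e2 f2 + K.br e3 f3) - (K.br e2 f2 - K.br e3 f3) := by
      module
    rw [this, z1, z2, sub_zero]

end Pool.Agent.TH109.CG2
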