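import Pool.Agent.TH109.CG2.J2

/-!
Torus data with roots whose direction `B` is closed only after multiplication by a constant,
and the second order expansion (following `H842R4.Asm1`, `H842R4.Asm2`, `H842R4.Asm4`).
-/

open MeasureTheory Filter Topology Pool.Agent.H842R4 Pool.Agent.H842R4.Calc

noncomputable section

namespace Pool.Agent.TH109.CG2

variable {P 𝔤 : Type} [NormedAddCommGroup 𝔤] [InnerProductSpace ℝ 𝔤]

/-- A closed 2-torus with its weight decomposition. For a root with weight `(m, n)` the vectors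
`B = r X + s Y` and `W = n X - m Y` satisfy: `k B` and `W` generate closed flows. -/
structure Datum2 (K : Calc P 𝔤) where
  X : 𝔤
  Y : 𝔤
  brXY : K.br X Y = 0
  clX : K.Cl X
  clY : K.Cl Y
  ind : LinearIndependent ℝ ![X, Y]
  q11 : ℝ
  q12 : ℝ
  q22 : ℝ
  ιC : Type
  fC : Fintype ιC
  C : ιC → 𝔤
  w : ιC → ℝ
  clC : ∀ i, K.Cl (C i)
  brXC : ∀ i, K.br X (C i) = 0
  brYC : ∀ i, K.br Y (C i) = 0
  indC : ∀ i, LinearIndependent ℝ ![X, Y, C i]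
  ιR : Type
  fR : Fintype ιR
  m : ιR → ℝ
  n : ιR → ℝ
  r : ιR → ℝ
  s : ιR → ℝ
  k : ιR → ℝ
  unim' : ∀ a, r a * m a + s a * n a = 1
  k_ne : ∀ a, k a ≠ 0
  clB' : ∀ a, K.Cl (k a • (r a • X + s a • Y))
  clW' : ∀ a, K.Cl (n a • X + (-(m a)) • Y)
  Z1 : ιR → 𝔤
  Z2 : ιR → 𝔤
  brX1 : ∀ a, K.br X (Z1 a) = m a • Z2 a
  brX2 : ∀ a, K.br X (Z2 a) = -(m a • Z1 a)
  brY1 : ∀ a, K.br Y (Z1 a) = n a • Z2 a
  brY2 : ∀ a, K.br Y (Z2 a) = -(n a • Z1 a)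
  orth : Orthonormal ℝ (Sum.elim Z1 Z2)
  parseval : ∀ u v : 𝔤, inner ℝ u v =
    q11 * (inner ℝ u X * inner ℝ v X) + q12 * (inner ℝ u X * inner ℝ v Y + inner ℝ u Y * inner ℝ v X)
    + q22 * (inner ℝ u Y * inner ℝ v Y) + ∑ i, w i * (inner ℝ u (C i) * inner ℝ v (C i))
    + ∑ a, (inner ℝ u (Z1 a) * inner ℝ v (Z1 a) + inner ℝ u (Z2 a) * inner ℝ v (Z2 a))

attribute [instance] Datum2.fC Datum2.fR

namespace Datum2

variable {K : Calc P 𝔤} (T : Datum2 K)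

/-- the direction `B = r X + s Y` of a root -/
def B (a : T.ιR) : 𝔤 := (T.r a : ℝ) • T.X + (T.s a : ℝ) • T.Y

/-- the direction `W = n X - m Y` of a root -/
def W (a : T.ιR) : 𝔤 := (T.n a : ℝ) • T.X + (-(T.m a : ℝ)) • T.Y

lemma brBW (a : T.ιR) : K.br (T.B a) (T.W a) = 0 := by
  have h : K.br T.Y T.X = 0 := by rw [K.br_anti, T.brXY, neg_zero]
  simp [B, W, T.brXY, h, K.br_self]

lemma brW1 (a : T.ιR) : K.br (T.W a) (T.Z1 a) = 0 := by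
  simp only [W, map_add, map_smul, LinearMap.add_apply, LinearMap.smul_apply, T.brX1, T.brY1]
  module

lemma brW2 (a : T.ιR) : K.br (T.W a) (T.Z2 a) = 0 := by
  simp only [W, map_add, map_smul, LinearMap.add_apply, LinearMap.smul_apply, T.brX2, T.brY2]
  module

lemma brB1 (a : T.ιR) : K.br (T.B a) (T.Z1 a) = T.Z2 a := by
  simp only [B, map_add, map_smul, LinearMap.add_apply, LinearMap.smul_apply, T.brX1, T.brY1]
  rw [smul_smul, smul_smul, ← add_smul, T.unim' a, one_smul]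

lemma brB2 (a : T.ιR) : K.br (T.B a) (T.Z2 a) = - T.Z1 a := by
  simp only [B, map_add, map_smul, LinearMap.add_apply, LinearMap.smul_apply, T.brX2, T.brY2]
  rw [smul_neg, smul_neg, smul_smul, smul_smul, ← neg_add, ← add_smul, T.unim' a, one_smul]

lemma clB (a : T.ιR) : K.Cl (T.k a • T.B a) := T.clB' a

lemma clW (a : T.ιR) : K.Cl (T.W a) := T.clW' a

lemma indBW (a : T.ιR) : LinearIndependent ℝ ![T.B a, T.W a] := by
  have hi := LinearIndependent.pair_iff.1 T.ind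
  rw [LinearIndependent.pair_iff]
  intro x y hxy
  have h := T.unim' a
  have h1 : (x * T.r a + y * T.n a) • T.X + (x * T.s a - y * T.m a) • T.Y = 0 := by
    rw [← hxy, B, W]
    module
  obtain ⟨h2, h3⟩ := hi _ _ h1
  constructor
  · have : x * ((T.r a : ℝ) * T.m a + T.s a * T.n a) = 0 := by
      linear_combination (T.m a : ℝ) * h2 + (T.n a : ℝ) * h3
    rwa [h, mul_one] at this
  · have : y * ((T.r a : ℝ) * T.m a + T.s a * T.n a) = 0 := by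
      linear_combination (T.s a : ℝ) * h2 - (T.r a : ℝ) * h3
    rwa [h, mul_one] at this

/-- the tangential part -/
def F0 (h : 𝔤 →ₗ[ℝ] 𝔤 →ₗ[ℝ] K.𝒜) : K.𝒜 :=
  T.q11 • (K.eta h T.X T.Y T.X ^ 2 - K.eta h T.X T.X T.X * K.eta h T.Y T.Y T.X)
  + T.q12 • ((2 : ℝ) • (K.eta h T.X T.Y T.X * K.eta h T.X T.Y T.Y)
      - K.eta h T.X T.X T.X * K.eta h T.Y T.Y T.Y - K.eta h T.X T.X T.Y * K.eta h T.Y T.Y T.X)
  + T.q22 • (K.eta h T.X T.Y T.Y ^ 2 - K.eta h T.X T.X T.Y * K.eta h T.Y T.Y T.Y)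

/-- the zero weight part -/
def F1 (h : 𝔤 →ₗ[ℝ] 𝔤 →ₗ[ℝ] K.𝒜) (i : T.ιC) : K.𝒜 :=
  K.eta h T.X T.Y (T.C i) ^ 2 - K.eta h T.X T.X (T.C i) * K.eta h T.Y T.Y (T.C i)

/-- the part of a root -/
def F2 (h : 𝔤 →ₗ[ℝ] 𝔤 →ₗ[ℝ] K.𝒜) (a : T.ιR) : K.𝒜 :=
  K.eta h (T.B a) (T.W a) (T.Z1 a) ^ 2 + K.eta h (T.B a) (T.W a) (T.Z2 a) ^ 2
    - K.eta h (T.B a) (T.B a) (T.Z1 a) * K.eta h (T.W a) (T.W a) (T.Z1 a)
    - K.eta h (T.B a) (T.B a) (T.Z2 a) * K.eta h (T.W a) (T.W a) (T.Z2 a)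
    - (4 : ℝ) • (K.R1 h (T.W a) (T.B a) (T.B a) (T.Z1 a) ^ 2
      + K.R1 h (T.W a) (T.B a) (T.B a) (T.Z2 a) ^ 2)

/-- the part of the root term which is invariant under the flow of `W` -/
def F3 (h : 𝔤 →ₗ[ℝ] 𝔤 →ₗ[ℝ] K.𝒜) (a : T.ιR) : K.𝒜 :=
  G3 K (T.B a) (T.W a) (K.eta h (T.B a) (T.W a) (T.Z1 a)) (K.eta h (T.B a) (T.W a) (T.Z2 a))

/-- the second order function -/
def F (h : 𝔤 →ₗ[ℝ] 𝔤 →ₗ[ℝ] K.𝒜) : K.𝒜 :=
  T.F0 h + ∑ i, T.w i • T.F1 h i + ∑ a, T.F2 h a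

end Datum2

variable [FiniteDimensional ℝ 𝔤]


variable {K : Calc P 𝔤} (S : Pert K) (T : Datum2 K)

lemma F0_small : K.sm (fun j => K.Av T.X (K.Av T.Y (T.F0 (S.h j)))) := by
  have h1 := S.tang1 T.X T.Y T.brXY T.clX T.clY T.ind
  have h2 := S.tang2 T.X T.Y T.brXY T.clX T.clY T.ind
  have h3 := S.tang3 T.X T.Y T.brXY T.clX T.clY T.ind
  refine (((h1.smul T.q11).add (h3.smul T.q12)).add (h2.smul T.q22)).congr fun j => ?_
  simp only [Datum2.F0, map_add, map_smul]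

lemma F1_small : K.sm (fun j => K.Av T.X (K.Av T.Y (∑ i, T.w i • T.F1 (S.h j) i))) := by
  have h1 : ∀ i, K.sm (fun j => K.Av T.X (K.Av T.Y (T.w i • T.F1 (S.h j) i))) := by
    intro i
    have := S.zero_small T.X T.Y (T.C i) T.brXY (T.brXC i) (T.brYC i) T.clX T.clY (T.clC i)
      (T.indC i)
    refine (this.smul (T.w i)).congr fun j => ?_
    simp only [Datum2.F1, map_smul]
  refine (Pool.Agent.H842R4.sm_sum _ h1).congr fun j => ?_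
  simp only [map_sum]

lemma F2_le (ε' : ℝ) (hε : 0 < ε') : ∀ᶠ j in atTop, ∀ p,
    K.ev p (K.Av T.X (K.Av T.Y (∑ a, T.F2 (S.h j) a))) ≤
      ε' + K.ev p (K.Av T.X (K.Av T.Y (∑ a, T.F3 (S.h j) a))) := by
  have h1 : ∀ a, ∀ᶠ j in atTop, ∀ p, K.ev p (K.Av T.X (K.Av T.Y (T.F2 (S.h j) a))) ≤
      ε' / (Fintype.card T.ιR + 1) + K.ev p (K.Av T.X (K.Av T.Y (T.F3 (S.h j) a))) := by
    intro a
    exact J_le2 S T.X T.Y (T.B a) (T.W a) (T.Z1 a) (T.Z2 a) _ _ _ _ (T.k a) T.brXY T.clX T.clY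
      rfl rfl (T.k_ne a) (T.clB a) (T.clW a) (T.indBW a) (T.brW1 a) (T.brB1 a) (T.brB2 a) _
      (by positivity)
  have h2 := Filter.eventually_all.2 h1
  filter_upwards [h2] with j hj p
  simp only [map_sum]
  calc ∑ a, K.ev p (K.Av T.X (K.Av T.Y (T.F2 (S.h j) a)))
      ≤ ∑ a : T.ιR, (ε' / (Fintype.card T.ιR + 1)
          + K.ev p (K.Av T.X (K.Av T.Y (T.F3 (S.h j) a)))) := Finset.sum_le_sum fun a _ => hj a p
    _ = Fintype.card T.ιR * (ε' / (Fintype.card T.ιR + 1))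
          + ∑ a, K.ev p (K.Av T.X (K.Av T.Y (T.F3 (S.h j) a))) := by
        rw [Finset.sum_add_distrib, Finset.sum_const, Finset.card_univ, nsmul_eq_mul]
    _ ≤ ε' + ∑ a, K.ev p (K.Av T.X (K.Av T.Y (T.F3 (S.h j) a))) := by
        have : (0 : ℝ) ≤ Fintype.card T.ιR := Nat.cast_nonneg _
        have h3 : (Fintype.card T.ιR : ℝ) * (ε' / (Fintype.card T.ιR + 1)) ≤ ε' := by
          rw [mul_div_assoc', div_le_iff₀ (by positivity)]
          nlinarith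
        linarith

/-- the average of the second order function, eventually -/
theorem F_le (ε' : ℝ) (hε : 0 < ε') : ∀ᶠ j in atTop, ∀ p,
    K.ev p (K.Av T.X (K.Av T.Y (T.F (S.h j)))) ≤
      ε' + K.ev p (K.Av T.X (K.Av T.Y (∑ a, T.F3 (S.h j) a))) := by
  have h0 := F0_small S T (ε' / 3) (by positivity)
  have h1 := F1_small S T (ε' / 3) (by positivity)
  have h2 := F2_le S T (ε' / 3) (by positivity)
  filter_upwards [h0, h1, h2] with j a0 a1 a2 p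
  have b0 := (abs_le.1 (a0 p)).2
  have b1 := (abs_le.1 (a1 p)).2
  have b2 := a2 p
  simp only [Datum2.F, map_add]
  linarith


section noFD

omit [FiniteDimensional ℝ 𝔤]

namespace Datum2

variable {K : Calc P 𝔤} (T : Datum2 K) (h : 𝔤 →ₗ[ℝ] 𝔤 →ₗ[ℝ] K.𝒜)

/-- tilt vector of a root at `p` -/
def V (p : P) (a : T.ιR) : 𝔤 :=
  (-4 * K.ev p (K.R1 h (T.W a) (T.B a) (T.B a) (T.Z1 a))) • T.Z1 a
    + (-4 * K.ev p (K.R1 h (T.W a) (T.B a) (T.B a) (T.Z2 a))) • T.Z2 a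

/-- tilt of `X` -/
def UX (p : P) : 𝔤 := ∑ a, (T.s a : ℝ) • T.V h p a

/-- tilt of `Y` -/
def UY (p : P) : 𝔤 := ∑ a, (-(T.r a : ℝ)) • T.V h p a

lemma R1_add_left (A A' B C Z : 𝔤) : K.R1 h (A + A') B C Z = K.R1 h A B C Z + K.R1 h A' B C Z := by
  simp only [Calc.R1, map_add, LinearMap.add_apply, K.eta_add_left, K.eta_add_right]; module

lemma R1_smul_left (c : ℝ) (A B C Z : 𝔤) : K.R1 h (c • A) B C Z = c • K.R1 h A B C Z := by
  simp only [Calc.R1, map_smul, LinearMap.smul_apply, K.eta_smul_left, K.eta_smul_right]; module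

lemma R1_add_third (A B C C' Z : 𝔤) : K.R1 h A B (C + C') Z = K.R1 h A B C Z + K.R1 h A B C' Z := by
  simp only [Calc.R1, map_add, K.eta_add_mid]; module

lemma R1_smul_third (c : ℝ) (A B C Z : 𝔤) : K.R1 h A B (c • C) Z = c • K.R1 h A B C Z := by
  simp only [Calc.R1, map_smul, K.eta_smul_mid]; module

lemma R1_add_second (A B B' C Z : 𝔤) : K.R1 h A (B + B') C Z = K.R1 h A B C Z + K.R1 h A B' C Z := by
  rw [K.R1_anti, R1_add_left, K.R1_anti h B, K.R1_anti h B']; abel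

lemma R1_smul_second (c : ℝ) (A B C Z : 𝔤) : K.R1 h A (c • B) C Z = c • K.R1 h A B C Z := by
  rw [K.R1_anti, R1_smul_left, K.R1_anti h B]; module

lemma R1_self (A C Z : 𝔤) : K.R1 h A A C Z = 0 := by
  simp only [Calc.R1]; abel

lemma R1_WBB (a : T.ιR) (Z : 𝔤) :
    K.R1 h (T.W a) (T.B a) (T.B a) Z =
      (T.s a : ℝ) • K.R1 h T.X T.Y T.Y Z - (T.r a : ℝ) • K.R1 h T.Y T.X T.X Z := by
  have hu := T.unim' a
  have h1 : K.R1 h T.Y T.X T.Y Z = - K.R1 h T.X T.Y T.Y Z := K.R1_anti h _ _ _ _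
  have h2 : K.R1 h T.X T.Y T.X Z = - K.R1 h T.Y T.X T.X Z := K.R1_anti h _ _ _ _
  simp only [Datum2.W, Datum2.B, R1_add_left, R1_smul_left, R1_add_second, R1_smul_second,
    R1_add_third, R1_smul_third, R1_self, h1, h2, smul_zero, smul_smul, smul_add, smul_neg]
  have e : ∀ u v : K.𝒜, (T.s a : ℝ) • u - (T.r a : ℝ) • v =
    ((T.s a : ℝ) * (T.r a * T.m a + T.s a * T.n a)) • u -
      ((T.r a : ℝ) * (T.r a * T.m a + T.s a * T.n a)) • v := by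
    intro u v
    rw [hu, mul_one, mul_one]
  rw [e]
  module

/-- `br X UY + br UX Y = ∑ [V, B]` -/
lemma br_tilt (p : P) : K.br T.X (T.UY h p) + K.br (T.UX h p) T.Y =
    ∑ a, ((4 * K.ev p (K.R1 h (T.W a) (T.B a) (T.B a) (T.Z1 a))) • T.Z2 a
      + (-4 * K.ev p (K.R1 h (T.W a) (T.B a) (T.B a) (T.Z2 a))) • T.Z1 a) := by
  rw [K.br_anti (T.UX h p) T.Y, UX, UY, map_sum, map_sum, ← Finset.sum_neg_distrib,
    ← Finset.sum_add_distrib]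
  refine Finset.sum_congr rfl fun a _ => ?_
  have h1 := T.brB1 a
  have h2 := T.brB2 a
  have h3 : K.br (T.B a) (T.V h p a) =
      (-4 * K.ev p (K.R1 h (T.W a) (T.B a) (T.B a) (T.Z1 a))) • T.Z2 a
    + (-4 * K.ev p (K.R1 h (T.W a) (T.B a) (T.B a) (T.Z2 a))) • (- T.Z1 a) := by
    rw [V, map_add, map_smul, map_smul, h1, h2]
  have h4 : K.br T.X ((-(T.r a : ℝ)) • T.V h p a) + - K.br T.Y ((T.s a : ℝ) • T.V h p a) =
      - K.br (T.B a) (T.V h p a) := by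
    rw [Datum2.B, map_add, LinearMap.add_apply, map_smul, map_smul, map_smul, map_smul]
    simp only [LinearMap.smul_apply]
    module
  rw [h4, h3]
  module

lemma norm_tilt (p : P) : ‖K.br T.X (T.UY h p) + K.br (T.UX h p) T.Y‖ ^ 2 =
    ∑ a, 16 * (K.ev p (K.R1 h (T.W a) (T.B a) (T.B a) (T.Z1 a)) ^ 2
      + K.ev p (K.R1 h (T.W a) (T.B a) (T.B a) (T.Z2 a)) ^ 2) := by
  classical
  rw [T.br_tilt h p]
  set c : T.ιR ⊕ T.ιR → ℝ := Sum.elim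
    (fun a => -4 * K.ev p (K.R1 h (T.W a) (T.B a) (T.B a) (T.Z2 a)))
    (fun a => 4 * K.ev p (K.R1 h (T.W a) (T.B a) (T.B a) (T.Z1 a))) with hc
  have h1 : ∑ a, ((4 * K.ev p (K.R1 h (T.W a) (T.B a) (T.B a) (T.Z1 a))) • T.Z2 a
      + (-4 * K.ev p (K.R1 h (T.W a) (T.B a) (T.B a) (T.Z2 a))) • T.Z1 a) =
      ∑ x, c x • (Sum.elim T.Z1 T.Z2 : T.ιR ⊕ T.ιR → 𝔤) x := by
    rw [Fintype.sum_sum_type, ← Finset.sum_add_distrib]
    refine Finset.sum_congr rfl fun a _ => ?_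
    simp only [hc, Sum.elim_inl, Sum.elim_inr]
    rw [add_comm]
  rw [h1, ← real_inner_self_eq_norm_sq, T.orth.inner_sum]
  rw [Fintype.sum_sum_type, ← Finset.sum_add_distrib]
  refine Finset.sum_congr rfl fun a _ => ?_
  simp only [hc, Sum.elim_inl, Sum.elim_inr, conj_trivial]
  ring

lemma R1_tilt (p : P) : 2 * K.ev p (K.R1 h T.X T.Y T.Y (T.UX h p))
    + 2 * K.ev p (K.R1 h T.Y T.X T.X (T.UY h p)) =
    ∑ a, -8 * (K.ev p (K.R1 h (T.W a) (T.B a) (T.B a) (T.Z1 a)) ^ 2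
      + K.ev p (K.R1 h (T.W a) (T.B a) (T.B a) (T.Z2 a)) ^ 2) := by
  have h1 : K.R1 h T.X T.Y T.Y (T.UX h p) = ∑ a, (T.s a : ℝ) • K.R1 h T.X T.Y T.Y (T.V h p a) := by
    have := map_sum (K.R1L h T.X T.Y T.Y) (fun a => (T.s a : ℝ) • T.V h p a) Finset.univ
    simp only [map_smul] at this
    exact this
  have h2 : K.R1 h T.Y T.X T.X (T.UY h p) =
      ∑ a, (-(T.r a : ℝ)) • K.R1 h T.Y T.X T.X (T.V h p a) := by
    have := map_sum (K.R1L h T.Y T.X T.X) (fun a => (-(T.r a : ℝ)) • T.V h p a) Finset.univ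
    simp only [map_smul] at this
    exact this
  rw [h1, h2, map_sum, map_sum, Finset.mul_sum, Finset.mul_sum, ← Finset.sum_add_distrib]
  refine Finset.sum_congr rfl fun a _ => ?_
  have h3 := congrArg (K.ev p) (T.R1_WBB h a (T.V h p a))
  have h4 : K.R1 h (T.W a) (T.B a) (T.B a) (T.V h p a) =
    (-4 * K.ev p (K.R1 h (T.W a) (T.B a) (T.B a) (T.Z1 a))) •
        K.R1 h (T.W a) (T.B a) (T.B a) (T.Z1 a)
      + (-4 * K.ev p (K.R1 h (T.W a) (T.B a) (T.B a) (T.Z2 a))) •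
        K.R1 h (T.W a) (T.B a) (T.B a) (T.Z2 a) := by
    rw [V, K.R1_add_right, K.R1_smul_right, K.R1_smul_right]
  rw [h4] at h3
  simp only [map_add, map_sub, map_smul, smul_eq_mul] at h3 ⊢
  linear_combination (-2 : ℝ) * h3

lemma det_inv (hs : ∀ A B, h A B = h B A) (a : T.ιR) (Z : 𝔤) :
    K.eta h (T.B a) (T.W a) Z ^ 2 - K.eta h (T.B a) (T.B a) Z * K.eta h (T.W a) (T.W a) Z =
      K.eta h T.X T.Y Z ^ 2 - K.eta h T.X T.X Z * K.eta h T.Y T.Y Z := by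
  have hu := T.unim' a
  have hc : K.eta h T.Y T.X Z = K.eta h T.X T.Y Z :=
    (K.eta_comm_of h T.X T.Y Z hs T.brXY).symm
  have e1 : ∀ (c : ℝ) (f : K.𝒜), c • f = algebraMap ℝ K.𝒜 c * f := fun c f => Algebra.smul_def c f
  have hu' : algebraMap ℝ K.𝒜 (T.r a) * algebraMap ℝ K.𝒜 (T.m a)
      + algebraMap ℝ K.𝒜 (T.s a) * algebraMap ℝ K.𝒜 (T.n a) = 1 := by
    rw [← map_mul, ← map_mul, ← map_add, hu, map_one]
  simp only [Datum2.B, Datum2.W, K.eta_add_left, K.eta_add_mid, K.eta_smul_left,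
    K.eta_smul_mid, hc, e1, map_neg]
  generalize algebraMap ℝ K.𝒜 (T.r a) = r at *
  generalize algebraMap ℝ K.𝒜 (T.s a) = s at *
  generalize algebraMap ℝ K.𝒜 (T.m a) = m at *
  generalize algebraMap ℝ K.𝒜 (T.n a) = n at *
  generalize K.eta h T.X T.Y Z = y
  generalize K.eta h T.X T.X Z = x
  generalize K.eta h T.Y T.Y Z = z
  linear_combination ((y ^ 2 - x * z) * (r * m + s * n + 1)) * hu'

/-- the second order term of the optimal tilt is `F` -/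
theorem tilt_identity (hs : ∀ A B, h A B = h B A) (p : P) (EXX EXY EYY : 𝔤)
    (h1 : K.IsEta h p T.X T.X EXX) (h2 : K.IsEta h p T.X T.Y EXY) (h3 : K.IsEta h p T.Y T.Y EYY) :
    inner ℝ EXY EXY - inner ℝ EXX EYY + 2 * K.ev p (K.R1 h T.X T.Y T.Y (T.UX h p))
      + 2 * K.ev p (K.R1 h T.Y T.X T.X (T.UY h p))
      + (1 / 4) * ‖K.br T.X (T.UY h p) + K.br (T.UX h p) T.Y‖ ^ 2 = K.ev p (T.F h) := by
  have e1 := T.R1_tilt h p
  have e2 := T.norm_tilt h p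
  have e3 := T.parseval EXY EXY
  have e4 := T.parseval EXX EYY
  have d1 : ∀ a, K.ev p (T.F2 h a) =
      (K.ev p (K.eta h T.X T.Y (T.Z1 a)) ^ 2
        - K.ev p (K.eta h T.X T.X (T.Z1 a)) * K.ev p (K.eta h T.Y T.Y (T.Z1 a)))
      + (K.ev p (K.eta h T.X T.Y (T.Z2 a)) ^ 2
        - K.ev p (K.eta h T.X T.X (T.Z2 a)) * K.ev p (K.eta h T.Y T.Y (T.Z2 a)))
      - 4 * (K.ev p (K.R1 h (T.W a) (T.B a) (T.B a) (T.Z1 a)) ^ 2
      + K.ev p (K.R1 h (T.W a) (T.B a) (T.B a) (T.Z2 a)) ^ 2) := by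
    intro a
    have f1 := congrArg (K.ev p) (T.det_inv h hs a (T.Z1 a))
    have f2 := congrArg (K.ev p) (T.det_inv h hs a (T.Z2 a))
    simp only [map_sub, map_mul, map_pow] at f1 f2
    simp only [F2, map_sub, map_add, map_mul, map_pow, map_smul, smul_eq_mul]
    linear_combination f1 + f2
  have d2 : ∀ i, K.ev p (T.w i • T.F1 h i) = T.w i * (K.ev p (K.eta h T.X T.Y (T.C i)) ^ 2
        - K.ev p (K.eta h T.X T.X (T.C i)) * K.ev p (K.eta h T.Y T.Y (T.C i))) := by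
    intro i
    simp only [F1, map_sub, map_mul, map_pow, map_smul, smul_eq_mul]
  have d0 : K.ev p (T.F h) = K.ev p (T.F0 h)
      + ∑ i, T.w i * (K.ev p (K.eta h T.X T.Y (T.C i)) ^ 2
        - K.ev p (K.eta h T.X T.X (T.C i)) * K.ev p (K.eta h T.Y T.Y (T.C i)))
      + ∑ a, ((K.ev p (K.eta h T.X T.Y (T.Z1 a)) ^ 2
        - K.ev p (K.eta h T.X T.X (T.Z1 a)) * K.ev p (K.eta h T.Y T.Y (T.Z1 a)))
      + (K.ev p (K.eta h T.X T.Y (T.Z2 a)) ^ 2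
        - K.ev p (K.eta h T.X T.X (T.Z2 a)) * K.ev p (K.eta h T.Y T.Y (T.Z2 a)))
      - 4 * (K.ev p (K.R1 h (T.W a) (T.B a) (T.B a) (T.Z1 a)) ^ 2
      + K.ev p (K.R1 h (T.W a) (T.B a) (T.B a) (T.Z2 a)) ^ 2)) := by
    simp only [F, map_add, map_sum, d1, d2]
  rw [add_assoc (inner ℝ EXY EXY - inner ℝ EXX EYY), e1, e2, d0, e3, e4]
  have h1' : ∀ C, inner ℝ EXX C = K.ev p (K.eta h T.X T.X C) := h1
  have h2' : ∀ C, inner ℝ EXY C = K.ev p (K.eta h T.X T.Y C) := h2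
  have h3' : ∀ C, inner ℝ EYY C = K.ev p (K.eta h T.Y T.Y C) := h3
  have g1 : ∑ i, T.w i * (K.ev p (K.eta h T.X T.Y (T.C i)) ^ 2
        - K.ev p (K.eta h T.X T.X (T.C i)) * K.ev p (K.eta h T.Y T.Y (T.C i))) =
      ∑ i, T.w i * (inner ℝ EXY (T.C i) * inner ℝ EXY (T.C i))
      - ∑ i, T.w i * (inner ℝ EXX (T.C i) * inner ℝ EYY (T.C i)) := by
    rw [← Finset.sum_sub_distrib]
    refine Finset.sum_congr rfl fun i _ => ?_
    rw [h1', h2', h3']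
    ring
  have g2 : ∑ a, ((K.ev p (K.eta h T.X T.Y (T.Z1 a)) ^ 2
        - K.ev p (K.eta h T.X T.X (T.Z1 a)) * K.ev p (K.eta h T.Y T.Y (T.Z1 a)))
      + (K.ev p (K.eta h T.X T.Y (T.Z2 a)) ^ 2
        - K.ev p (K.eta h T.X T.X (T.Z2 a)) * K.ev p (K.eta h T.Y T.Y (T.Z2 a)))
      - 4 * (K.ev p (K.R1 h (T.W a) (T.B a) (T.B a) (T.Z1 a)) ^ 2
      + K.ev p (K.R1 h (T.W a) (T.B a) (T.B a) (T.Z2 a)) ^ 2)) =
      ∑ a, (inner ℝ EXY (T.Z1 a) * inner ℝ EXY (T.Z1 a)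
        + inner ℝ EXY (T.Z2 a) * inner ℝ EXY (T.Z2 a))
      - ∑ a, (inner ℝ EXX (T.Z1 a) * inner ℝ EYY (T.Z1 a)
        + inner ℝ EXX (T.Z2 a) * inner ℝ EYY (T.Z2 a))
      + ∑ a, -8 * (K.ev p (K.R1 h (T.W a) (T.B a) (T.B a) (T.Z1 a)) ^ 2
      + K.ev p (K.R1 h (T.W a) (T.B a) (T.B a) (T.Z2 a)) ^ 2)
      + (1 / 4) * ∑ a, 16 * (K.ev p (K.R1 h (T.W a) (T.B a) (T.B a) (T.Z1 a)) ^ 2
      + K.ev p (K.R1 h (T.W a) (T.B a) (T.B a) (T.Z2 a)) ^ 2) := by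
    rw [Finset.mul_sum, ← Finset.sum_sub_distrib, ← Finset.sum_add_distrib,
      ← Finset.sum_add_distrib]
    refine Finset.sum_congr rfl fun a _ => ?_
    rw [h1', h2', h3', h1', h2', h3']
    ring
  rw [g1, g2, F0]
  simp only [h1', h2', h3', map_add, map_sub, map_mul, map_pow, map_smul, smul_eq_mul]
  ring

end Datum2


end noFD

variable {K : Calc P 𝔤} (S : Pert K) (T : Datum2 K)

lemma exists_tilt_bound : ∃ M : ℝ, ∀ j p, ‖T.UX (S.h j) p‖ ≤ M ∧ ‖T.UY (S.h j) p‖ ≤ M := by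
  obtain ⟨C, hC, hb⟩ := S.R1_bound
  have h1 : ∀ j p a Z, |K.ev p (K.R1 (S.h j) (T.W a) (T.B a) (T.B a) Z)| ≤
      C * ‖T.W a‖ * ‖T.B a‖ * ‖T.B a‖ * ‖Z‖ := by
    intro j p a Z
    have := hb j [] (by simp) (T.W a) (T.B a) (T.B a) Z p
    simpa [Calc.Dl] using this
  set D : T.ιR → ℝ := fun a => 4 * (C * ‖T.W a‖ * ‖T.B a‖ * ‖T.B a‖ * ‖T.Z1 a‖) * ‖T.Z1 a‖
    + 4 * (C * ‖T.W a‖ * ‖T.B a‖ * ‖T.B a‖ * ‖T.Z2 a‖) * ‖T.Z2 a‖ with hD
  have h2 : ∀ j p a, ‖T.V (S.h j) p a‖ ≤ D a := by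
    intro j p a
    refine (norm_add_le _ _).trans ?_
    rw [norm_smul, norm_smul, Real.norm_eq_abs, Real.norm_eq_abs, abs_mul, abs_mul]
    have e : |(-4 : ℝ)| = 4 := by norm_num
    rw [e]
    have a1 := h1 j p a (T.Z1 a)
    have a2 := h1 j p a (T.Z2 a)
    exact add_le_add (mul_le_mul_of_nonneg_right (by linarith) (norm_nonneg _))
      (mul_le_mul_of_nonneg_right (by linarith) (norm_nonneg _))
  have hD0 : ∀ a, 0 ≤ D a := fun a => by positivity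
  refine ⟨∑ a, (|(T.s a : ℝ)| + |(T.r a : ℝ)|) * D a, fun j p => ⟨?_, ?_⟩⟩
  · refine (norm_sum_le _ _).trans (Finset.sum_le_sum fun a _ => ?_)
    rw [norm_smul, Real.norm_eq_abs]
    exact mul_le_mul (by linarith [abs_nonneg (T.r a : ℝ)]) (h2 j p a) (norm_nonneg _)
      (by positivity)
  · refine (norm_sum_le _ _).trans (Finset.sum_le_sum fun a _ => ?_)
    rw [norm_smul, Real.norm_eq_abs, abs_neg]
    exact mul_le_mul (by linarith [abs_nonneg (T.s a : ℝ)]) (h2 j p a) (norm_nonneg _)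
      (by positivity)

omit [FiniteDimensional ℝ 𝔤] in
lemma Av_Q (h : 𝔤 →ₗ[ℝ] 𝔤 →ₗ[ℝ] K.𝒜) : K.Av T.X (K.Av T.Y (K.Q h T.X T.Y)) = 0 := by
  have h1 := K.Av_Av_D T.X T.Y T.brXY T.clX T.clY 1 0 (K.eta h T.Y T.Y T.X)
  have h2 := K.Av_Av_D T.X T.Y T.brXY T.clX T.clY 0 1 (K.eta h T.X T.Y T.X)
  simp only [one_smul, zero_smul, add_zero, zero_add] at h1 h2
  rw [Calc.Q, map_sub, map_sub, h1, h2, sub_zero]

/-- the pointwise inequality -/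
lemma pt_ineq : ∃ C : ℝ, 0 < C ∧ ∀ᶠ j in atTop, ∀ p,
    S.ε * S.t j ^ 2 * ((‖T.X‖ ^ 2 * ‖T.Y‖ ^ 2 - inner ℝ T.X T.Y ^ 2) / 2) ≤
      S.t j * K.ev p (K.Q (S.h j) T.X T.Y) + S.t j ^ 2 * K.ev p (T.F (S.h j)) + C * S.t j ^ 3 := by
  obtain ⟨M, hM⟩ := exists_tilt_bound S T
  obtain ⟨C, hC, hE⟩ := S.num_expB T.X T.Y T.brXY M
  have hG := S.gram_low T.X T.Y T.ind M
  have hN := S.exists_nabla
  have hg := gram_pos T.ind
  refine ⟨C, hC, ?_⟩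
  filter_upwards [hE, hG, hN] with j h1 h2 h3 p
  have hU := (hM j p).1
  have hV := (hM j p).2
  set U := T.UX (S.h j) p with hUd
  set V := T.UY (S.h j) p with hVd
  obtain ⟨Vuu, a1⟩ := h3 p (T.X + S.t j • U) (T.X + S.t j • U)
  obtain ⟨Vuv, a2⟩ := h3 p (T.X + S.t j • U) (T.Y + S.t j • V)
  obtain ⟨Vvu, a3⟩ := h3 p (T.Y + S.t j • V) (T.X + S.t j • U)
  obtain ⟨Vvv, a4⟩ := h3 p (T.Y + S.t j • V) (T.Y + S.t j • V)
  obtain ⟨EXX, b1⟩ := K.exists_eta (S.h j) p T.X T.X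
  obtain ⟨EXY, b2⟩ := K.exists_eta (S.h j) p T.X T.Y
  obtain ⟨EYY, b3⟩ := K.exists_eta (S.h j) p T.Y T.Y
  have c1 := h1 p U V hU hV Vuu Vuv Vvu Vvv EXX EXY EYY a1 a2 a3 a4 b1 b2 b3
  have c2 := h2 p U V hU hV
  have hi := S.indep_of_gram j p _ _ (lt_of_lt_of_le (by linarith) c2)
  have c3 := S.pos j p _ _ hi Vuu Vuv Vvu Vvv a1 a2 a3 a4
  have c4 := T.tilt_identity (S.h j) (S.symm j) p EXX EXY EYY b1 b2 b3
  have c5 := (abs_le.1 c1).2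
  have c6 : S.ε * S.t j ^ 2 * ((‖T.X‖ ^ 2 * ‖T.Y‖ ^ 2 - inner ℝ T.X T.Y ^ 2) / 2) ≤
      S.ε * S.t j ^ 2 * K.gram (K.met (S.t j) (S.h j)) p (T.X + S.t j • U) (T.Y + S.t j • V) :=
    mul_le_mul_of_nonneg_left c2 (mul_nonneg S.ε_pos.le (sq_nonneg _))
  rw [← hUd, ← hVd] at c4
  rw [c4] at c5
  linarith


end Pool.Agent.TH109.CG2
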