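import Pool.Agent.TH109.CG2.SU2
import Pool.Agent.TH109.CG.Datum

/-!
Construction of a torus datum with prescribed special roots.
-/

open Module Pool.Agent.H842R4 Pool.Agent.H842R4.Calc Pool.Agent.TH109.CG

noncomputable section

namespace Pool.Agent.TH109.CG2

variable {P 𝔤 : Type} [NormedAddCommGroup 𝔤] [InnerProductSpace ℝ 𝔤]

lemma fl_int' {K : Calc P 𝔤} (A : 𝔤) (hA : K.Cl A) (m : ℤ) (p : P) :
    K.fl A ((m : ℝ) * (2 * Real.pi)) p = p := TorusDatum.fl_int A hA m p

lemma cl_comb' {K : Calc P 𝔤} {X Y : 𝔤} (hXY : K.br X Y = 0) (hX : K.Cl X) (hY : K.Cl Y)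
    (a b : ℤ) : K.Cl ((a : ℝ) • X + (b : ℝ) • Y) := by
  intro p
  rw [K.fl_comb _ _ hXY, fl_int' Y hY, fl_int' X hX]

/-- a special root: weight, closed directions and root vectors -/
structure Sp (K : Calc P 𝔤) (X Y : 𝔤) (ιS : Type) where
  m : ιS → ℝ
  n : ιS → ℝ
  r : ιS → ℝ
  s : ιS → ℝ
  k : ιS → ℝ
  unim : ∀ a, r a * m a + s a * n a = 1
  k_ne : ∀ a, k a ≠ 0
  clB : ∀ a, K.Cl (k a • (r a • X + s a • Y))
  clW : ∀ a, K.Cl (n a • X + (-(m a)) • Y)
  Z1 : ιS → 𝔤
  Z2 : ιS → 𝔤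
  brX1 : ∀ a, K.br X (Z1 a) = m a • Z2 a
  brX2 : ∀ a, K.br X (Z2 a) = -(m a • Z1 a)
  brY1 : ∀ a, K.br Y (Z1 a) = n a • Z2 a
  brY2 : ∀ a, K.br Y (Z2 a) = -(n a • Z1 a)
  orth : Orthonormal ℝ (Sum.elim Z1 Z2)

/-- the `W`-invariant root term of a special root -/
def Sp.G {K : Calc P 𝔤} {X Y : 𝔤} {ιS : Type} (Q : Sp K X Y ιS)
    (h : 𝔤 →ₗ[ℝ] 𝔤 →ₗ[ℝ] K.𝒜) (a : ιS) : K.𝒜 :=
  G3 K (Q.r a • X + Q.s a • Y) (Q.n a • X + (-(Q.m a)) • Y)
    (K.eta h (Q.r a • X + Q.s a • Y) (Q.n a • X + (-(Q.m a)) • Y) (Q.Z1 a))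
    (K.eta h (Q.r a • X + Q.s a • Y) (Q.n a • X + (-(Q.m a)) • Y) (Q.Z2 a))

theorem exists_datum2 [FiniteDimensional ℝ 𝔤] (K : Calc P 𝔤) (M : Mean K) (X Y : 𝔤)
    (hXY : K.br X Y = 0) (clX : K.Cl X) (clY : K.Cl Y) (ind : LinearIndependent ℝ ![X, Y])
    {ιS : Type} [Fintype ιS] (Q : Sp K X Y ιS)
    (hint : ∀ (μ ν : ℝ) (A B : 𝔤), ‖A‖ = 1 → inner ℝ A B = (0 : ℝ) →
      (∀ a, inner ℝ A (Q.Z1 a) = (0 : ℝ) ∧ inner ℝ A (Q.Z2 a) = (0 : ℝ)) →
      K.br X A = μ • B → K.br X B = -(μ • A) →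
      K.br Y A = ν • B → K.br Y B = -(ν • A) → (μ ≠ 0 ∨ ν ≠ 0) →
      ∃ m n r s : ℤ, μ = m ∧ ν = n ∧ r * m + s * n = 1)
    (hsq : ∀ A, K.br X A = 0 → K.br Y A = 0 →
      sq A ∈ Submodule.span ℝ (sq '' {C | K.Cl C ∧ K.br X C = 0 ∧ K.br Y C = 0})) :
    ∃ T : Datum2 K, ∀ h : 𝔤 →ₗ[ℝ] 𝔤 →ₗ[ℝ] K.𝒜, M.E (∑ a, T.F3 h a) ≤ ∑ a, M.E (Q.G h a) := by
  classical
  have h1 : ∀ u v : 𝔤, inner ℝ (K.br X u) v = - inner ℝ u (K.br X v) := by
    intro u v
    rw [K.br_anti X u, inner_neg_left, K.ad_inv]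
  have h2 : ∀ u v : 𝔤, inner ℝ (K.br Y u) v = - inner ℝ u (K.br Y v) := by
    intro u v
    rw [K.br_anti Y u, inner_neg_left, K.ad_inv]
  have hc : ∀ u, K.br X (K.br Y u) = K.br Y (K.br X u) := by
    intro u
    rw [K.jac, hXY, LinearMap.map_zero, LinearMap.zero_apply, zero_add]
  -- the orthogonal complement of the special root vectors
  set W0 : Submodule ℝ 𝔤 := (Submodule.span ℝ (Set.range (Sum.elim Q.Z1 Q.Z2)))ᗮ with hW0
  have memW : ∀ v, v ∈ W0 ↔ ∀ a, inner ℝ v (Q.Z1 a) = (0 : ℝ) ∧ inner ℝ v (Q.Z2 a) = (0 : ℝ) := by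
    intro v
    rw [hW0, Submodule.mem_orthogonal']
    constructor
    · intro hv a
      exact ⟨hv _ (Submodule.subset_span ⟨Sum.inl a, rfl⟩),
        hv _ (Submodule.subset_span ⟨Sum.inr a, rfl⟩)⟩
    · intro hv u hu
      induction hu using Submodule.span_induction with
      | mem x hx =>
        obtain ⟨a | a, rfl⟩ := hx
        · exact (hv a).1
        · exact (hv a).2
      | zero => exact inner_zero_right _
      | add x y _ _ hx hy => rw [inner_add_right, hx, hy, add_zero]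
      | smul c x _ hx => rw [real_inner_smul_right, hx, mul_zero]
  have hWX : ∀ u ∈ W0, K.br X u ∈ W0 := by
    intro u hu
    rw [memW] at hu ⊢
    intro a
    rw [h1, h1, Q.brX1, Q.brX2, inner_neg_right, real_inner_smul_right, real_inner_smul_right,
      (hu a).1, (hu a).2]
    simp
  have hWY : ∀ u ∈ W0, K.br Y u ∈ W0 := by
    intro u hu
    rw [memW] at hu ⊢
    intro a
    rw [h2, h2, Q.brY1, Q.brY2, inner_neg_right, real_inner_smul_right, real_inner_smul_right,
      (hu a).1, (hu a).2]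
    simp
  obtain ⟨ι0, ιR, f0, fR, e, μ, ν, Z1, Z2, he, hZ, hw, hne, ho, hp⟩ :=
    exists_weights (K.br X) (K.br Y) h1 h2 hc _ W0 le_rfl hWX hWY
  have hsum : ∑ i, sq (e i) ∈
      Submodule.span ℝ (sq '' {C | K.Cl C ∧ K.br X C = 0 ∧ K.br Y C = 0}) :=
    Submodule.sum_mem _ fun i _ => hsq (e i) (he i).2.1 (he i).2.2
  obtain ⟨n, f, g, hfg⟩ := Submodule.mem_span_set'.1 hsum
  have hg : ∀ i, ∃ C : 𝔤, (K.Cl C ∧ K.br X C = 0 ∧ K.br Y C = 0) ∧ sq C = (g i : 𝔤 × 𝔤 → ℝ) :=
    fun i => (g i).2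
  choose C hC hCg using hg
  have hdep : ∀ i, ∃ α β : ℝ, ¬ LinearIndependent ℝ ![X, Y, C i] → C i = α • X + β • Y := by
    intro i
    by_cases h : LinearIndependent ℝ ![X, Y, C i]
    · exact ⟨0, 0, fun h' => absurd h h'⟩
    · obtain ⟨α, β, hab⟩ := dep_of_not_indep ind h
      exact ⟨α, β, fun _ => hab⟩
  choose α β hαβ using hdep
  have ho1 : ∀ a, ‖Z1 a‖ = 1 := fun a => ho.1 (Sum.inl a)
  have ho2 : ∀ a, inner ℝ (Z1 a) (Z2 a) = (0 : ℝ) := fun a =>
    ho.2 (i := Sum.inl a) (j := Sum.inr a) (by simp)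
  have hwt : ∀ a, ∃ m n r s : ℤ, μ a = m ∧ ν a = n ∧ r * m + s * n = 1 := fun a =>
    hint (μ a) (ν a) (Z1 a) (Z2 a) (ho1 a) (ho2 a) ((memW _).1 (hZ a).1)
      (hw a).1 (hw a).2.1 (hw a).2.2.1 (hw a).2.2.2 (hne a)
  choose m n' r s hm hn hrs using hwt
  have hrs' : ∀ a, (r a : ℝ) * (m a : ℝ) + (s a : ℝ) * (n' a : ℝ) = 1 := fun a => by
    exact_mod_cast hrs a
  have key : ∀ u v : 𝔤, ∑ i, inner ℝ u (e i) * inner ℝ v (e i) =
      ∑ i, f i * (inner ℝ u (C i) * inner ℝ v (C i)) := by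
    intro u v
    have h3 := congrFun hfg (u, v)
    simp only [Finset.sum_apply, Pi.smul_apply, ← hCg, smul_eq_mul, CG.sq] at h3
    exact h3.symm
  -- orthogonality relations
  have hoQ := Q.orth
  rw [orthonormal_iff_ite] at ho hoQ
  have k11 : ∀ a b, inner ℝ (Z1 a) (Z1 b) = if a = b then (1 : ℝ) else 0 := fun a b => by
    simpa using ho (Sum.inl a) (Sum.inl b)
  have k12 : ∀ a b, inner ℝ (Z1 a) (Z2 b) = (0 : ℝ) := fun a b => by
    simpa using ho (Sum.inl a) (Sum.inr b)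
  have k21 : ∀ a b, inner ℝ (Z2 a) (Z1 b) = (0 : ℝ) := fun a b => by
    simpa using ho (Sum.inr a) (Sum.inl b)
  have k22 : ∀ a b, inner ℝ (Z2 a) (Z2 b) = if a = b then (1 : ℝ) else 0 := fun a b => by
    simpa using ho (Sum.inr a) (Sum.inr b)
  have q11 : ∀ a b, inner ℝ (Q.Z1 a) (Q.Z1 b) = if a = b then (1 : ℝ) else 0 := fun a b => by
    simpa using hoQ (Sum.inl a) (Sum.inl b)
  have q12 : ∀ a b, inner ℝ (Q.Z1 a) (Q.Z2 b) = (0 : ℝ) := fun a b => by
    simpa using hoQ (Sum.inl a) (Sum.inr b)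
  have q21 : ∀ a b, inner ℝ (Q.Z2 a) (Q.Z1 b) = (0 : ℝ) := fun a b => by
    simpa using hoQ (Sum.inr a) (Sum.inl b)
  have q22 : ∀ a b, inner ℝ (Q.Z2 a) (Q.Z2 b) = if a = b then (1 : ℝ) else 0 := fun a b => by
    simpa using hoQ (Sum.inr a) (Sum.inr b)
  have c11 : ∀ a b, inner ℝ (Z1 a) (Q.Z1 b) = (0 : ℝ) := fun a b => ((memW _).1 (hZ a).1 b).1
  have c12 : ∀ a b, inner ℝ (Z1 a) (Q.Z2 b) = (0 : ℝ) := fun a b => ((memW _).1 (hZ a).1 b).2
  have c21 : ∀ a b, inner ℝ (Z2 a) (Q.Z1 b) = (0 : ℝ) := fun a b => ((memW _).1 (hZ a).2 b).1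
  have c22 : ∀ a b, inner ℝ (Z2 a) (Q.Z2 b) = (0 : ℝ) := fun a b => ((memW _).1 (hZ a).2 b).2
  have d11 : ∀ a b, inner ℝ (Q.Z1 b) (Z1 a) = (0 : ℝ) := fun a b => by
    rw [real_inner_comm]; exact c11 a b
  have d12 : ∀ a b, inner ℝ (Q.Z2 b) (Z1 a) = (0 : ℝ) := fun a b => by
    rw [real_inner_comm]; exact c12 a b
  have d21 : ∀ a b, inner ℝ (Q.Z1 b) (Z2 a) = (0 : ℝ) := fun a b => by
    rw [real_inner_comm]; exact c21 a b
  have d22 : ∀ a b, inner ℝ (Q.Z2 b) (Z2 a) = (0 : ℝ) := fun a b => by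
    rw [real_inner_comm]; exact c22 a b
  let T : Datum2 K :=
    { X := X
      Y := Y
      brXY := hXY
      clX := clX
      clY := clY
      ind := ind
      q11 := ∑ i, if LinearIndependent ℝ ![X, Y, C i] then 0 else f i * (α i * α i)
      q12 := ∑ i, if LinearIndependent ℝ ![X, Y, C i] then 0 else f i * (α i * β i)
      q22 := ∑ i, if LinearIndependent ℝ ![X, Y, C i] then 0 else f i * (β i * β i)
      ιC := {i // LinearIndependent ℝ ![X, Y, C i]}
      fC := inferInstance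
      C := fun i => C i.1
      w := fun i => f i.1
      clC := fun i => (hC i.1).1
      brXC := fun i => (hC i.1).2.1
      brYC := fun i => (hC i.1).2.2
      indC := fun i => i.2
      ιR := ιR ⊕ ιS
      fR := inferInstance
      m := Sum.elim (fun a => (m a : ℝ)) Q.m
      n := Sum.elim (fun a => (n' a : ℝ)) Q.n
      r := Sum.elim (fun a => (r a : ℝ)) Q.r
      s := Sum.elim (fun a => (s a : ℝ)) Q.s
      k := Sum.elim (fun _ => 1) Q.k
      unim' := by
        rintro (a | a)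
        · exact hrs' a
        · exact Q.unim a
      k_ne := by
        rintro (a | a)
        · exact one_ne_zero
        · exact Q.k_ne a
      clB' := by
        rintro (a | a)
        · show K.Cl ((1 : ℝ) • ((r a : ℝ) • X + (s a : ℝ) • Y))
          rw [one_smul]
          exact cl_comb' hXY clX clY _ _
        · exact Q.clB a
      clW' := by
        rintro (a | a)
        · show K.Cl ((n' a : ℝ) • X + (-(m a : ℝ)) • Y)
          have := cl_comb' hXY clX clY (n' a) (-(m a))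
          rwa [Int.cast_neg] at this
        · exact Q.clW a
      Z1 := Sum.elim Z1 Q.Z1
      Z2 := Sum.elim Z2 Q.Z2
      brX1 := by
        rintro (a | a)
        · show K.br X (Z1 a) = (m a : ℝ) • Z2 a
          rw [← hm]; exact (hw a).1
        · exact Q.brX1 a
      brX2 := by
        rintro (a | a)
        · show K.br X (Z2 a) = -((m a : ℝ) • Z1 a)
          rw [← hm]; exact (hw a).2.1
        · exact Q.brX2 a
      brY1 := by
        rintro (a | a)
        · show K.br Y (Z1 a) = (n' a : ℝ) • Z2 a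
          rw [← hn]; exact (hw a).2.2.1
        · exact Q.brY1 a
      brY2 := by
        rintro (a | a)
        · show K.br Y (Z2 a) = -((n' a : ℝ) • Z1 a)
          rw [← hn]; exact (hw a).2.2.2
        · exact Q.brY2 a
      orth := by
        rw [orthonormal_iff_ite]
        rintro ((x | x) | (x | x)) ((y | y) | (y | y)) <;>
          simp [k11, k12, k21, k22, q11, q12, q21, q22, c11, c12, c21, c22, d11, d12, d21, d22,
            -inner_self_eq_norm_sq_to_K]
      parseval := by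
        intro u v
        set v0 : 𝔤 := v - ∑ a, (inner ℝ v (Q.Z1 a) • Q.Z1 a + inner ℝ v (Q.Z2 a) • Q.Z2 a) with hv0
        have hv0W : v0 ∈ W0 := by
          rw [memW]
          intro b
          rw [hv0]
          constructor
          · rw [inner_sub_left, sum_inner]
            simp [inner_add_left, real_inner_smul_left, q11, q21]
          · rw [inner_sub_left, sum_inner]
            simp [inner_add_left, real_inner_smul_left, q12, q22]
        have hv1 : ∀ x ∈ W0, inner ℝ v0 x = inner ℝ v x := by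
          intro x hx
          have hx' := (memW x).1 hx
          rw [hv0, inner_sub_left, sum_inner]
          have : ∑ a, inner ℝ (inner ℝ v (Q.Z1 a) • Q.Z1 a + inner ℝ v (Q.Z2 a) • Q.Z2 a) x =
              (0 : ℝ) := by
            refine Finset.sum_eq_zero fun a _ => ?_
            rw [inner_add_left, real_inner_smul_left, real_inner_smul_left,
              real_inner_comm x (Q.Z1 a), real_inner_comm x (Q.Z2 a), (hx' a).1, (hx' a).2]
            ring
          rw [this, sub_zero]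
        have h3 := hp u v0 hv0W
        have h4 : inner ℝ u v0 = inner ℝ u v -
            ∑ a, (inner ℝ u (Q.Z1 a) * inner ℝ v (Q.Z1 a) + inner ℝ u (Q.Z2 a) * inner ℝ v (Q.Z2 a))
            := by
          rw [hv0, inner_sub_right, inner_sum]
          congr 1
          refine Finset.sum_congr rfl fun a _ => ?_
          rw [inner_add_right, real_inner_smul_right, real_inner_smul_right]
          ring
        have h5 : ∀ i, inner ℝ v0 (e i) = inner ℝ v (e i) := fun i => hv1 _ (he i).1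
        have h6 : ∀ i, inner ℝ v0 (Z1 i) = inner ℝ v (Z1 i) := fun i => hv1 _ (hZ i).1
        have h7 : ∀ i, inner ℝ v0 (Z2 i) = inner ℝ v (Z2 i) := fun i => hv1 _ (hZ i).2
        simp only [h5, h6, h7] at h3
        rw [h4, key] at h3
        have h8 : ∑ i : {i // LinearIndependent ℝ ![X, Y, C i]},
            f i.1 * (inner ℝ u (C i.1) * inner ℝ v (C i.1)) =
            ∑ i, if LinearIndependent ℝ ![X, Y, C i] then
              f i * (inner ℝ u (C i) * inner ℝ v (C i)) else 0 := by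
          rw [← Finset.sum_filter]
          exact (Finset.sum_subtype (Finset.univ.filter fun i => LinearIndependent ℝ ![X, Y, C i])
            (by simp) (fun i => f i * (inner ℝ u (C i) * inner ℝ v (C i)))).symm
        have h9 : ∑ i, f i * (inner ℝ u (C i) * inner ℝ v (C i)) =
            (∑ i, if LinearIndependent ℝ ![X, Y, C i] then 0 else f i * (α i * α i)) *
              (inner ℝ u X * inner ℝ v X) +
            (∑ i, if LinearIndependent ℝ ![X, Y, C i] then 0 else f i * (α i * β i)) *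
              (inner ℝ u X * inner ℝ v Y + inner ℝ u Y * inner ℝ v X) +
            (∑ i, if LinearIndependent ℝ ![X, Y, C i] then 0 else f i * (β i * β i)) *
              (inner ℝ u Y * inner ℝ v Y) +
            ∑ i : {i // LinearIndependent ℝ ![X, Y, C i]},
              f i.1 * (inner ℝ u (C i.1) * inner ℝ v (C i.1)) := by
          rw [h8, Finset.sum_mul, Finset.sum_mul, Finset.sum_mul, ← Finset.sum_add_distrib,
            ← Finset.sum_add_distrib, ← Finset.sum_add_distrib]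
          refine Finset.sum_congr rfl fun i _ => ?_
          by_cases h : LinearIndependent ℝ ![X, Y, C i]
          · simp only [if_pos h]
            ring
          · simp only [if_neg h]
            rw [hαβ i h]
            simp only [inner_add_right, real_inner_smul_right]
            ring
        rw [Fintype.sum_sum_type]
        simp only [Sum.elim_inl, Sum.elim_inr]
        rw [h9] at h3
        linarith }
  refine ⟨T, fun h => ?_⟩
  rw [map_sum]
  show ∑ a : ιR ⊕ ιS, M.E (T.F3 h a) ≤ _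
  rw [Fintype.sum_sum_type]
  have h10 : ∑ a : ιR, M.E (T.F3 h (Sum.inl a)) ≤ 0 := by
    refine Finset.sum_nonpos fun a _ => ?_
    exact G3_nonpos M _ _ (cl_comb' hXY clX clY (r a) (s a)) _ _
  have h11 : ∑ a : ιS, M.E (T.F3 h (Sum.inr a)) = ∑ a, M.E (Q.G h a) := rfl
  linarith

end Pool.Agent.TH109.CG2
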