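import Pool.Agent.TH109.CG2.Asm

/-!
Invariant means and the contradiction for a finite family of tori.
-/

open MeasureTheory Filter Topology Pool.Agent.H842R4 Pool.Agent.H842R4.Calc

noncomputable section

namespace Pool.Agent.TH109.CG2

variable {P 𝔤 : Type} [NormedAddCommGroup 𝔤] [InnerProductSpace ℝ 𝔤]

/-- an invariant mean on the algebra of smooth functions -/
structure Mean (K : Calc P 𝔤) where
  E : K.𝒜 →ₗ[ℝ] ℝ
  mono : ∀ f g, (∀ p, K.ev p f ≤ K.ev p g) → E f ≤ E g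
  const : ∀ c : ℝ, E (algebraMap ℝ K.𝒜 c) = c
  inv : ∀ A f, E (K.D A f) = 0

namespace Mean

variable {K : Calc P 𝔤} (M : Mean K)

theorem E_Av (A : 𝔤) (hA : K.Cl A) (f : K.𝒜) : M.E (K.Av A f) = M.E f := by
  have h1 := M.inv A (K.Pr A f)
  rw [K.D_Pr_self A hA, map_sub] at h1
  linarith

theorem parts (A : 𝔤) (f g : K.𝒜) : M.E (f * K.D A g) = - M.E (K.D A f * g) := by
  have h1 := M.inv A (f * g)
  rw [K.D_mul, map_add] at h1
  rw [mul_comm (K.D A f) g]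
  linarith

theorem E_nonneg (f : K.𝒜) (h : ∀ p, 0 ≤ K.ev p f) : 0 ≤ M.E f := by
  have h1 := M.mono 0 f (fun p => by rw [map_zero]; exact h p)
  rwa [map_zero] at h1

end Mean

variable [FiniteDimensional ℝ 𝔤]

/-- one torus -/
theorem mean_ineq {K : Calc P 𝔤} (M : Mean K) (S : Pert K) (T : Datum2 K) :
    ∃ C : ℝ, 0 < C ∧ ∀ ε' : ℝ, 0 < ε' → ∀ᶠ j in atTop,
      S.ε * ((‖T.X‖ ^ 2 * ‖T.Y‖ ^ 2 - inner ℝ T.X T.Y ^ 2) / 2) ≤
        ε' + M.E (∑ a, T.F3 (S.h j) a) + C * S.t j := by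
  obtain ⟨C, hC, hpt⟩ := pt_ineq S T
  refine ⟨C, hC, fun ε' hε' => ?_⟩
  filter_upwards [hpt, F_le S T ε' hε'] with j h1 h2
  have t0 := S.t_pos j
  have t2 : 0 < S.t j ^ 2 := by positivity
  have k1 := M.mono (algebraMap ℝ K.𝒜 (S.ε * S.t j ^ 2 *
      ((‖T.X‖ ^ 2 * ‖T.Y‖ ^ 2 - inner ℝ T.X T.Y ^ 2) / 2)))
    (S.t j • K.Q (S.h j) T.X T.Y + S.t j ^ 2 • T.F (S.h j) + algebraMap ℝ K.𝒜 (C * S.t j ^ 3))
    (fun q => by
      have := h1 q
      simp only [map_add, map_smul, smul_eq_mul, AlgHom.commutes]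
      exact this)
  have hQ : M.E (K.Q (S.h j) T.X T.Y) = 0 := by
    rw [Calc.Q, map_sub, M.inv, M.inv, sub_zero]
  rw [M.const, map_add, map_add, map_smul, map_smul, M.const, hQ, smul_zero, zero_add,
    smul_eq_mul] at k1
  have k2 := M.mono (K.Av T.X (K.Av T.Y (T.F (S.h j))))
    (algebraMap ℝ K.𝒜 ε' + K.Av T.X (K.Av T.Y (∑ a, T.F3 (S.h j) a)))
    (fun q => by
      rw [map_add, AlgHom.commutes]
      exact h2 q)
  rw [map_add, M.const, M.E_Av _ T.clX, M.E_Av _ T.clY, M.E_Av _ T.clX, M.E_Av _ T.clY] at k2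
  have k3 : S.t j ^ 2 * (S.ε * ((‖T.X‖ ^ 2 * ‖T.Y‖ ^ 2 - inner ℝ T.X T.Y ^ 2) / 2)) ≤
      S.t j ^ 2 * (ε' + M.E (∑ a, T.F3 (S.h j) a) + C * S.t j) := by
    have : S.t j ^ 2 * M.E (T.F (S.h j)) ≤
        S.t j ^ 2 * (ε' + M.E (∑ a, T.F3 (S.h j) a)) := mul_le_mul_of_nonneg_left k2 t2.le
    nlinarith
  exact le_of_mul_le_mul_left k3 t2

/-- There is no sequence of metrics as in `Pert`, if there is an invariant mean and a finite family
of closed tori such that the sum of the means of the `W`-invariant root terms is nonpositive. -/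
theorem contra2 {K : Calc P 𝔤} (M : Mean K) (S : Pert K) {τ : Type} [Fintype τ] [Nonempty τ]
    (T : τ → Datum2 K) (hT : ∀ h : 𝔤 →ₗ[ℝ] 𝔤 →ₗ[ℝ] K.𝒜, (∀ A B, h A B = h B A) →
      ∑ i, M.E (∑ a, (T i).F3 h a) ≤ 0) : False := by
  choose C hC hpt using fun i => mean_ineq M S (T i)
  set g : τ → ℝ := fun i =>
    S.ε * ((‖(T i).X‖ ^ 2 * ‖(T i).Y‖ ^ 2 - inner ℝ (T i).X (T i).Y ^ 2) / 2) with hg
  have hg0 : ∀ i, 0 < g i := by
    intro i
    have h1 := gram_pos (T i).ind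
    have h2 := S.ε_pos
    simp only [hg]
    positivity
  have hA : 0 < ∑ i, g i := Finset.sum_pos (fun i _ => hg0 i) Finset.univ_nonempty
  set A := ∑ i, g i with hAd
  have hCs : 0 < ∑ i, C i := Finset.sum_pos (fun i _ => hC i) Finset.univ_nonempty
  have hcard : (0 : ℝ) < Fintype.card τ := by exact_mod_cast Fintype.card_pos
  have h1 : ∀ᶠ j in atTop, ∀ i, g i ≤ A / (4 * Fintype.card τ) + M.E (∑ a, (T i).F3 (S.h j) a) +
      C i * S.t j := Filter.eventually_all.2 fun i => hpt i _ (by positivity)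
  have ht : ∀ᶠ j in atTop, S.t j < A / (4 * ∑ i, C i) :=
    (tendsto_order.1 S.t_lim).2 _ (by positivity)
  obtain ⟨j, h2, h3⟩ := (h1.and ht).exists
  have h4 : A ≤ ∑ i : τ, (A / (4 * Fintype.card τ) + M.E (∑ a, (T i).F3 (S.h j) a) +
      C i * S.t j) := Finset.sum_le_sum fun i _ => h2 i
  rw [Finset.sum_add_distrib, Finset.sum_add_distrib, Finset.sum_const, Finset.card_univ,
    nsmul_eq_mul, ← Finset.sum_mul] at h4
  have h5 := hT (S.h j) (S.symm j)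
  have h6 : (Fintype.card τ : ℝ) * (A / (4 * Fintype.card τ)) = A / 4 := by
    field_simp
  have h7 : (∑ i, C i) * S.t j ≤ A / 4 := by
    rw [lt_div_iff₀ (by positivity)] at h3
    linarith
  rw [h6] at h4
  linarith

end Pool.Agent.TH109.CG2
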