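import Pool.Agent.TH109.CG.Main
import Pool.Agent.TH109.CG2.Mean

/-!
The invariant mean of a compact matrix group.
-/

open scoped Matrix.Norms.Frobenius Topology
open Matrix Filter MeasureTheory Pool.Agent.H842R4 Pool.Agent.TH109.CG

noncomputable section

namespace Pool.Agent.TH109.CG2

variable {N : ℕ} (G : CGroup N)

/-- the group structure on `G` -/
instance grp : Group (Pt G) :=
  { (inferInstance : Monoid G.S) with
    inv := fun p => ⟨star (p : Mat N), G.star_mem _ p.2⟩
    inv_mul_cancel := fun p => Subtype.ext (Matrix.mem_unitaryGroup_iff'.1 (G.unitary _ p.2)) }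

theorem coe_inv' (p : Pt G) : ((p⁻¹ : Pt G) : Mat N) = star (p : Mat N) := rfl

instance : ContinuousMul (Pt G) := inferInstanceAs (ContinuousMul G.S)

instance : IsTopologicalGroup (Pt G) where
  continuous_inv := by
    refine Continuous.subtype_mk ?_ _
    exact continuous_subtype_val.matrix_conjTranspose

theorem isCompact_S : IsCompact (G.S : Set (Mat N)) := by
  have : ProperSpace (Mat N) := FiniteDimensional.proper ℝ (Mat N)
  refine Metric.isCompact_of_isClosed_isBounded G.isClosed ?_
  refine (Metric.isBounded_closedBall (x := (0 : Mat N)) (r := uB N)).subset fun p hp => ?_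
  rw [mem_closedBall_zero_iff]
  exact norm_unitary_le (G.unitary p hp)

instance : CompactSpace (Pt G) := isCompact_iff_compactSpace.1 (isCompact_S G)

instance : MeasurableSpace (Pt G) := borel _

instance : BorelSpace (Pt G) := ⟨rfl⟩

theorem cont_of_smooth {f : Pt G → ℝ} (hf : Smooth f) : Continuous f := by
  obtain ⟨F, hF, hfF⟩ := hf
  have : f = fun p : Pt G => F (p : Mat N) := funext hfF
  rw [this]
  exact hF.continuous.comp continuous_subtype_val

/-- the mean -/
def meanFun (f : Pt G → ℝ) : ℝ :=
  ((Measure.haar : Measure (Pt G)).real Set.univ)⁻¹ * ∫ p, f (p⁻¹) ∂(Measure.haar : Measure (Pt G))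

theorem integrable_inv {f : Pt G → ℝ} (hf : Smooth f) :
    Integrable (fun p : Pt G => f (p⁻¹)) (Measure.haar : Measure (Pt G)) :=
  ((cont_of_smooth G hf).comp continuous_inv).integrable_of_hasCompactSupport
    (HasCompactSupport.of_compactSpace _)

theorem real_univ_pos : 0 < (Measure.haar : Measure (Pt G)).real Set.univ := by
  rw [measureReal_def, ENNReal.toReal_pos_iff]
  refine ⟨?_, measure_lt_top _ _⟩
  exact isOpen_univ.measure_pos _ ⟨1, trivial⟩

theorem mean_lie {f : Pt G → ℝ} (hf : Smooth f) (A : lieAlg G) : meanFun G (lie A f) = 0 := by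
  set μ : Measure (Pt G) := Measure.haar with hμ
  have hfl := smooth_lie f hf A
  obtain ⟨C, hC⟩ := bounded (lie A f) hfl
  have hmove : ∀ s : ℝ, Continuous fun p : Pt G => move p A s := by
    intro s
    refine Continuous.subtype_mk ?_ _
    exact continuous_subtype_val.matrix_mul continuous_const
  have hd := hasDerivAt_integral_of_dominated_loc_of_deriv_le (μ := μ)
    (F := fun (s : ℝ) (p : Pt G) => f (move (p⁻¹) A s))
    (F' := fun (s : ℝ) (p : Pt G) => lie A f (move (p⁻¹) A s)) (x₀ := (0 : ℝ))
    (s := Set.univ) (bound := fun _ => C) Filter.univ_mem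
    (Filter.Eventually.of_forall fun s =>
      ((cont_of_smooth G hf).comp ((hmove s).comp continuous_inv)).aestronglyMeasurable)
    (by
      simp only [move_zero]
      exact integrable_inv G hf)
    ((cont_of_smooth G hfl).comp ((hmove 0).comp continuous_inv)).aestronglyMeasurable
    (Filter.Eventually.of_forall fun p s _ => by
      rw [Real.norm_eq_abs]
      exact hC _)
    (integrable_const C)
    (Filter.Eventually.of_forall fun p s _ => hasDerivAt_move f hf A (p⁻¹) s)
  have hconst : ∀ s : ℝ, ∫ p, f (move (p⁻¹) A s) ∂μ = ∫ p, f (p⁻¹) ∂μ := by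
    intro s
    set g : Pt G := ⟨NormedSpace.exp (s • (A : Mat N)), A.2 s⟩ with hg
    have h1 : ∀ p : Pt G, move (p⁻¹) A s = (g⁻¹ * p)⁻¹ := by
      intro p
      rw [_root_.mul_inv_rev, inv_inv]
      rfl
    simp only [h1]
    exact integral_mul_left_eq_self (μ := μ) (fun p => f (p⁻¹)) (g⁻¹)
  have h2 : HasDerivAt (fun s : ℝ => ∫ p, f (move (p⁻¹) A s) ∂μ) 0 0 := by
    simp only [hconst]
    exact hasDerivAt_const _ _
  have h3 := hd.2.unique h2
  simp only [move_zero] at h3
  unfold meanFun
  rw [h3, mul_zero]

/-- the invariant mean of a compact matrix group -/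
def haarMean : Mean (gCalc G) where
  E :=
    { toFun := fun f => meanFun G f.1
      map_add' := by
        intro f g
        show meanFun G (f.1 + g.1) = meanFun G f.1 + meanFun G g.1
        unfold meanFun
        rw [← mul_add, ← integral_add (integrable_inv G f.2) (integrable_inv G g.2)]
        rfl
      map_smul' := by
        intro c f
        show meanFun G (c • f.1) = c * meanFun G f.1
        have e : ∫ p, (c • f.1) (p⁻¹) ∂(Measure.haar : Measure (Pt G)) =
            c * ∫ p, f.1 (p⁻¹) ∂(Measure.haar : Measure (Pt G)) :=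
          integral_const_mul c (fun p : Pt G => f.1 (p⁻¹))
        unfold meanFun
        rw [e]
        ring }
  mono := by
    intro f g h
    refine mul_le_mul_of_nonneg_left ?_ (inv_nonneg.2 (real_univ_pos G).le)
    exact integral_mono (integrable_inv G f.2) (integrable_inv G g.2) fun p => h (p⁻¹)
  const := by
    intro c
    show meanFun G (fun _ => c) = c
    unfold meanFun
    rw [integral_const, smul_eq_mul, inv_mul_cancel_left₀ (real_univ_pos G).ne']
  inv := by
    intro A f
    exact mean_lie G f.2 A

end Pool.Agent.TH109.CG2
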