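import Pool.Agent.H842R4.Asm4

/-!
The root part of the second order term for a root whose direction `B` need not be closed
(following `H842R4.JCore`, `H842R4.JAlpha`).
-/

open MeasureTheory Filter Topology Pool.Agent.H842R4 Pool.Agent.H842R4.Calc

noncomputable section

namespace Pool.Agent.TH109.CG2

variable {P 𝔤 : Type} [NormedAddCommGroup 𝔤] [InnerProductSpace ℝ 𝔤]

/-- the part of the root term which is invariant under the flow of `W` -/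
def G3 (K : Calc P 𝔤) (B W : 𝔤) (b₁ b₂ : K.𝒜) : K.𝒜 :=
  K.Av W b₁ ^ 2 + K.Av W b₂ ^ 2 - (4 : ℝ) • (K.Dt1 B (K.Av W b₁) (K.Av W b₂) ^ 2
    + K.Dt2 B (K.Av W b₁) (K.Av W b₂) ^ 2)

variable (K : Calc P 𝔤)

theorem jc_eq (X Y B W : 𝔤) (a b c d : ℝ) (hXY : K.br X Y = 0) (hX : K.Cl X) (hY : K.Cl Y)
    (hB : B = a • X + b • Y) (hW : W = c • X + d • Y) (cW : K.Cl W)
    (a₁ a₂ b₁ b₂ c₁ c₂ r₁ r₂ e₁ e₂ κ₁ κ₂ : K.𝒜)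
    (hr₁ : r₁ = K.D W a₁ - K.Dt1 B b₁ b₂) (hr₂ : r₂ = K.D W a₂ - K.Dt2 B b₁ b₂)
    (he₁ : K.Dt1 B c₁ c₂ - K.D W b₁ = e₁) (he₂ : K.Dt2 B c₁ c₂ - K.D W b₂ = e₂)
    (hκ₁ : (1 / 4 : ℝ) • c₁ - K.D W r₁ = κ₁) (hκ₂ : (1 / 4 : ℝ) • c₂ - K.D W r₂ = κ₂) (p : P) :
    K.jcL X Y p (b₁ ^ 2 + b₂ ^ 2 - a₁ * c₁ - a₂ * c₂ - (4 : ℝ) • (r₁ ^ 2 + r₂ ^ 2)) =
    K.jcL X Y p (-(b₁ * K.Pr W e₁ + b₂ * K.Pr W e₂)
      - (4 : ℝ) • (K.Dt1 B b₁ b₂ * K.Pr W κ₁ + K.Dt2 B b₁ b₂ * K.Pr W κ₂)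
      - (4 : ℝ) • (a₁ * κ₁ + a₂ * κ₂)) + K.jcL X Y p (G3 K B W b₁ b₂) := by
  have hYX : K.br Y X = 0 := by rw [K.br_anti, hXY, neg_zero]
  have hBW : K.br B W = 0 := by
    rw [hB, hW]
    simp [K.br_self, hXY, hYX]
  have hWB : K.br W B = 0 := by rw [K.br_anti, hBW, neg_zero]
  -- integration by parts
  have pB : ∀ f g : K.𝒜, K.jcL X Y p (f * K.D B g) = - K.jcL X Y p (K.D B f * g) := by
    intro f g
    rw [jcL_apply, jcL_apply, hB, K.Av_Av_parts X Y hXY hX hY a b f g, map_neg]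
  have pW : ∀ f g : K.𝒜, K.jcL X Y p (f * K.D W g) = - K.jcL X Y p (K.D W f * g) := by
    intro f g
    rw [jcL_apply, jcL_apply, hW, K.Av_Av_parts X Y hXY hX hY c d f g, map_neg]
  -- invariance
  have iW : ∀ f : K.𝒜, K.jcL X Y p (K.Av W f) = K.jcL X Y p f := by
    intro f
    rw [jcL_apply, jcL_apply, hW, K.Av_Av_Av X Y hXY hX hY c d f]
  -- Dt is skew
  have skew : ∀ f₁ f₂ g₁ g₂ : K.𝒜,
      K.jcL X Y p (K.Dt1 B f₁ f₂ * g₁ + K.Dt2 B f₁ f₂ * g₂) =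
      - K.jcL X Y p (f₁ * K.Dt1 B g₁ g₂ + f₂ * K.Dt2 B g₁ g₂) := by
    intro f₁ f₂ g₁ g₂
    have h1 : K.Dt1 B f₁ f₂ * g₁ + K.Dt2 B f₁ f₂ * g₂ =
        K.D B f₁ * g₁ + K.D B f₂ * g₂ + (1 / 2 : ℝ) • (f₁ * g₂ - f₂ * g₁) := by
      apply K.ext_ev
      intro q
      simp only [Dt1, Dt2, map_add, map_sub, map_mul, map_smul, smul_eq_mul]
      ring
    have h2 : f₁ * K.Dt1 B g₁ g₂ + f₂ * K.Dt2 B g₁ g₂ =
        f₁ * K.D B g₁ + f₂ * K.D B g₂ - (1 / 2 : ℝ) • (f₁ * g₂ - f₂ * g₁) := by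
      apply K.ext_ev
      intro q
      simp only [Dt1, Dt2, map_add, map_sub, map_mul, map_smul, smul_eq_mul]
      ring
    rw [h1, h2]
    simp only [map_add, map_sub, map_smul, smul_eq_mul, pB]
    ring
  -- the commutations
  have DtW1 : ∀ f₁ f₂ : K.𝒜, K.D W (K.Dt1 B f₁ f₂) = K.Dt1 B (K.D W f₁) (K.D W f₂) := by
    intro f₁ f₂
    simp only [Dt1, map_sub, map_smul, K.jc_D_comm hBW]
  have DtW2 : ∀ f₁ f₂ : K.𝒜, K.D W (K.Dt2 B f₁ f₂) = K.Dt2 B (K.D W f₁) (K.D W f₂) := by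
    intro f₁ f₂
    simp only [Dt2, map_add, map_smul, K.jc_D_comm hBW]
  have DtP1 : ∀ f₁ f₂ : K.𝒜, K.Av W (K.Dt1 B f₁ f₂) = K.Dt1 B (K.Av W f₁) (K.Av W f₂) := by
    intro f₁ f₂
    simp only [Dt1, map_sub, map_smul, K.D_Av_comm W B hWB]
  have DtP2 : ∀ f₁ f₂ : K.𝒜, K.Av W (K.Dt2 B f₁ f₂) = K.Dt2 B (K.Av W f₁) (K.Av W f₂) := by
    intro f₁ f₂
    simp only [Dt2, map_add, map_smul, K.D_Av_comm W B hWB]
  have DtQ1 : ∀ f₁ f₂ : K.𝒜, K.Pr W (K.Dt1 B f₁ f₂) = K.Dt1 B (K.Pr W f₁) (K.Pr W f₂) := by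
    intro f₁ f₂
    simp only [Dt1, map_sub, map_smul, K.D_Pr_comm W B hWB]
  have DtQ2 : ∀ f₁ f₂ : K.𝒜, K.Pr W (K.Dt2 B f₁ f₂) = K.Dt2 B (K.Pr W f₁) (K.Pr W f₂) := by
    intro f₁ f₂
    simp only [Dt2, map_add, map_smul, K.D_Pr_comm W B hWB]
  -- step 1, 2
  obtain ⟨q₁, hq₁⟩ : ∃ q, q = b₁ - (4 : ℝ) • K.Dt1 B r₁ r₂ := ⟨_, rfl⟩
  obtain ⟨q₂, hq₂⟩ : ∃ q, q = b₂ - (4 : ℝ) • K.Dt2 B r₁ r₂ := ⟨_, rfl⟩
  have hc₁ : c₁ = (4 : ℝ) • κ₁ + (4 : ℝ) • K.D W r₁ := by rw [← hκ₁]; module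
  have hc₂ : c₂ = (4 : ℝ) • κ₂ + (4 : ℝ) • K.D W r₂ := by rw [← hκ₂]; module
  have hWa₁ : K.D W a₁ = r₁ + K.Dt1 B b₁ b₂ := by rw [hr₁]; abel
  have hWa₂ : K.D W a₂ = r₂ + K.Dt2 B b₁ b₂ := by rw [hr₂]; abel
  have s1 : K.jcL X Y p (b₁ ^ 2 + b₂ ^ 2 - a₁ * c₁ - a₂ * c₂ - (4 : ℝ) • (r₁ ^ 2 + r₂ ^ 2)) =
      K.jcL X Y p (b₁ * q₁ + b₂ * q₂) - 4 * K.jcL X Y p (a₁ * κ₁ + a₂ * κ₂) := by
    have h1 : b₁ ^ 2 + b₂ ^ 2 - a₁ * c₁ - a₂ * c₂ - (4 : ℝ) • (r₁ ^ 2 + r₂ ^ 2) =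
        (b₁ ^ 2 + b₂ ^ 2) - (4 : ℝ) • (a₁ * κ₁ + a₂ * κ₂)
          - (4 : ℝ) • (a₁ * K.D W r₁ + a₂ * K.D W r₂) - (4 : ℝ) • (r₁ ^ 2 + r₂ ^ 2) := by
      apply K.ext_ev
      intro q
      rw [hc₁, hc₂]
      simp only [map_add, map_sub, map_mul, map_smul, map_pow, smul_eq_mul]
      ring
    have h2 : b₁ * q₁ + b₂ * q₂ = (b₁ ^ 2 + b₂ ^ 2)
        - (4 : ℝ) • (b₁ * K.Dt1 B r₁ r₂ + b₂ * K.Dt2 B r₁ r₂) := by
      apply K.ext_ev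
      intro q
      rw [hq₁, hq₂]
      simp only [map_add, map_sub, map_mul, map_smul, map_pow, smul_eq_mul]
      ring
    have h3 : K.jcL X Y p (a₁ * K.D W r₁ + a₂ * K.D W r₂) =
        - K.jcL X Y p (r₁ ^ 2 + r₂ ^ 2)
          - K.jcL X Y p (K.Dt1 B b₁ b₂ * r₁ + K.Dt2 B b₁ b₂ * r₂) := by
      rw [map_add, pW, pW, hWa₁, hWa₂]
      have : (r₁ ^ 2 + r₂ ^ 2) + (K.Dt1 B b₁ b₂ * r₁ + K.Dt2 B b₁ b₂ * r₂) =
          (r₁ + K.Dt1 B b₁ b₂) * r₁ + (r₂ + K.Dt2 B b₁ b₂) * r₂ := by ring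
      have h4 := congrArg (K.jcL X Y p) this
      rw [map_add, map_add _ ((r₁ + K.Dt1 B b₁ b₂) * r₁)] at h4
      linarith
    rw [h1, h2]
    rw [map_sub, map_sub, map_sub, map_sub, map_smul, map_smul, map_smul, map_smul, h3, skew]
    simp only [smul_eq_mul]
    ring
  -- step 3
  have dq₁ : K.D W q₁ = - e₁ + (4 : ℝ) • K.Dt1 B κ₁ κ₂ := by
    rw [hq₁, map_sub, map_smul, DtW1, ← he₁, ← hκ₁, ← hκ₂]
    simp only [Dt1, map_sub, map_smul]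
    module
  have dq₂ : K.D W q₂ = - e₂ + (4 : ℝ) • K.Dt2 B κ₁ κ₂ := by
    rw [hq₂, map_sub, map_smul, DtW2, ← he₂, ← hκ₁, ← hκ₂]
    simp only [Dt2, map_sub, map_smul]
    module
  have qP₁ : q₁ - K.Av W q₁ = - K.Pr W e₁ + (4 : ℝ) • K.Dt1 B (K.Pr W κ₁) (K.Pr W κ₂) := by
    rw [← K.Pr_D_self W cW, dq₁, map_add, map_neg, map_smul, DtQ1]
  have qP₂ : q₂ - K.Av W q₂ = - K.Pr W e₂ + (4 : ℝ) • K.Dt2 B (K.Pr W κ₁) (K.Pr W κ₂) := by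
    rw [← K.Pr_D_self W cW, dq₂, map_add, map_neg, map_smul, DtQ2]
  have s3 : K.jcL X Y p (b₁ * q₁ + b₂ * q₂) = K.jcL X Y p (b₁ * K.Av W q₁ + b₂ * K.Av W q₂)
      - K.jcL X Y p (b₁ * K.Pr W e₁ + b₂ * K.Pr W e₂)
      - 4 * K.jcL X Y p (K.Dt1 B b₁ b₂ * K.Pr W κ₁ + K.Dt2 B b₁ b₂ * K.Pr W κ₂) := by
    have h1 : b₁ * q₁ + b₂ * q₂ = (b₁ * K.Av W q₁ + b₂ * K.Av W q₂)
        - (b₁ * K.Pr W e₁ + b₂ * K.Pr W e₂)
        + (4 : ℝ) • (b₁ * K.Dt1 B (K.Pr W κ₁) (K.Pr W κ₂)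
          + b₂ * K.Dt2 B (K.Pr W κ₁) (K.Pr W κ₂)) := by
      have h2 : q₁ = K.Av W q₁ + (q₁ - K.Av W q₁) := by abel
      have h3 : q₂ = K.Av W q₂ + (q₂ - K.Av W q₂) := by abel
      rw [qP₁] at h2
      rw [qP₂] at h3
      apply K.ext_ev
      intro q
      have h2' := congrArg (K.ev q) h2
      have h3' := congrArg (K.ev q) h3
      simp only [map_add, map_sub, map_mul, map_smul, map_pow, map_neg, smul_eq_mul] at h2' h3' ⊢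
      rw [h2', h3']
      ring
    rw [h1, map_add, map_sub, map_smul, skew]
    simp only [smul_eq_mul]
    ring
  -- step 4
  have s4 : K.jcL X Y p (b₁ * K.Av W q₁ + b₂ * K.Av W q₂) =
      K.jcL X Y p (K.Av W b₁ * K.Av W q₁ + K.Av W b₂ * K.Av W q₂) := by
    rw [← iW (b₁ * K.Av W q₁ + b₂ * K.Av W q₂), map_add (K.Av W), mul_comm b₁, mul_comm b₂,
      K.Av_mul_Av W cW, K.Av_mul_Av W cW, mul_comm (K.Av W b₁), mul_comm (K.Av W b₂)]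
  have Pr₁ : K.Av W r₁ = - K.Dt1 B (K.Av W b₁) (K.Av W b₂) := by
    rw [hr₁, map_sub, K.Av_D W cW, DtP1, zero_sub]
  have Pr₂ : K.Av W r₂ = - K.Dt2 B (K.Av W b₁) (K.Av W b₂) := by
    rw [hr₂, map_sub, K.Av_D W cW, DtP2, zero_sub]
  obtain ⟨f₁, hf₁⟩ : ∃ f, f = K.Av W b₁ := ⟨_, rfl⟩
  obtain ⟨f₂, hf₂⟩ : ∃ f, f = K.Av W b₂ := ⟨_, rfl⟩
  rw [← hf₁, ← hf₂] at Pr₁ Pr₂ s4
  have Pq₁ : K.Av W q₁ = f₁ + (4 : ℝ) • K.Dt1 B (K.Dt1 B f₁ f₂) (K.Dt2 B f₁ f₂) := by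
    rw [hq₁, map_sub, map_smul, DtP1, Pr₁, Pr₂, ← hf₁]
    simp only [Dt1, Dt2, map_neg]
    module
  have Pq₂ : K.Av W q₂ = f₂ + (4 : ℝ) • K.Dt2 B (K.Dt1 B f₁ f₂) (K.Dt2 B f₁ f₂) := by
    rw [hq₂, map_sub, map_smul, DtP2, Pr₁, Pr₂, ← hf₂]
    simp only [Dt1, Dt2, map_neg]
    module
  have s5 : K.jcL X Y p (f₁ * K.Av W q₁ + f₂ * K.Av W q₂) =
      K.jcL X Y p (f₁ ^ 2 + f₂ ^ 2)
        - 4 * K.jcL X Y p (K.Dt1 B f₁ f₂ ^ 2 + K.Dt2 B f₁ f₂ ^ 2) := by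
    have h1 : f₁ * K.Av W q₁ + f₂ * K.Av W q₂ = (f₁ ^ 2 + f₂ ^ 2)
        + (4 : ℝ) • (f₁ * K.Dt1 B (K.Dt1 B f₁ f₂) (K.Dt2 B f₁ f₂)
          + f₂ * K.Dt2 B (K.Dt1 B f₁ f₂) (K.Dt2 B f₁ f₂)) := by
      rw [Pq₁, Pq₂]
      apply K.ext_ev
      intro q
      simp only [map_add, map_mul, map_smul, map_pow, smul_eq_mul]
      ring
    have h2 := skew f₁ f₂ (K.Dt1 B f₁ f₂) (K.Dt2 B f₁ f₂)
    rw [h1, map_add, map_smul, smul_eq_mul, sq (K.Dt1 B f₁ f₂), sq (K.Dt2 B f₁ f₂)]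
    linarith
  have e0 : K.jcL X Y p (-(b₁ * K.Pr W e₁ + b₂ * K.Pr W e₂)
      - (4 : ℝ) • (K.Dt1 B b₁ b₂ * K.Pr W κ₁ + K.Dt2 B b₁ b₂ * K.Pr W κ₂)
      - (4 : ℝ) • (a₁ * κ₁ + a₂ * κ₂)) =
      - K.jcL X Y p (b₁ * K.Pr W e₁ + b₂ * K.Pr W e₂)
      - 4 * K.jcL X Y p (K.Dt1 B b₁ b₂ * K.Pr W κ₁ + K.Dt2 B b₁ b₂ * K.Pr W κ₂)
      - 4 * K.jcL X Y p (a₁ * κ₁ + a₂ * κ₂) := by
    rw [map_sub, map_sub, map_neg, map_smul, map_smul, smul_eq_mul, smul_eq_mul]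
  have e3 : K.jcL X Y p (G3 K B W b₁ b₂) = K.jcL X Y p (f₁ ^ 2 + f₂ ^ 2)
      - 4 * K.jcL X Y p (K.Dt1 B f₁ f₂ ^ 2 + K.Dt2 B f₁ f₂ ^ 2) := by
    rw [G3, ← hf₁, ← hf₂, map_sub, map_smul, smul_eq_mul]
  rw [e0, s1, s3, s4, s5, e3]
  ring

theorem J_core2 (X Y B W : 𝔤) (a b c d : ℝ) (hXY : K.br X Y = 0) (hX : K.Cl X) (hY : K.Cl Y)
    (hB : B = a • X + b • Y) (hW : W = c • X + d • Y) (cW : K.Cl W)
    (a₁ a₂ b₁ b₂ c₁ c₂ r₁ r₂ : ℕ → K.𝒜)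
    (hr₁ : ∀ j, r₁ j = K.D W (a₁ j) - K.Dt1 B (b₁ j) (b₂ j))
    (hr₂ : ∀ j, r₂ j = K.D W (a₂ j) - K.Dt2 B (b₁ j) (b₂ j))
    (ba₁ : K.bd a₁) (ba₂ : K.bd a₂) (bb₁ : K.bd b₁) (bb₂ : K.bd b₂)
    (bDb₁ : K.bd (fun j => K.D B (b₁ j))) (bDb₂ : K.bd (fun j => K.D B (b₂ j)))
    (he₁ : K.sm (fun j => K.Dt1 B (c₁ j) (c₂ j) - K.D W (b₁ j)))
    (he₂ : K.sm (fun j => K.Dt2 B (c₁ j) (c₂ j) - K.D W (b₂ j)))
    (hκ₁ : K.sm (fun j => (1 / 4 : ℝ) • c₁ j - K.D W (r₁ j)))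
    (hκ₂ : K.sm (fun j => (1 / 4 : ℝ) • c₂ j - K.D W (r₂ j))) :
    ∀ ε' : ℝ, 0 < ε' → ∀ᶠ j in atTop, ∀ p,
      K.ev p (K.Av X (K.Av Y (b₁ j ^ 2 + b₂ j ^ 2 - a₁ j * c₁ j - a₂ j * c₂ j
        - (4 : ℝ) • (r₁ j ^ 2 + r₂ j ^ 2)))) ≤
        ε' + K.ev p (K.Av X (K.Av Y (G3 K B W (b₁ j) (b₂ j)))) := by
  have bD1 : K.bd (fun j => K.Dt1 B (b₁ j) (b₂ j)) := bDb₁.sub (bb₂.smul _)
  have bD2 : K.bd (fun j => K.Dt2 B (b₁ j) (b₂ j)) := bDb₂.add (bb₁.smul _)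
  have hs : K.sm (fun j => K.Av X (K.Av Y
      (-(b₁ j * K.Pr W (K.Dt1 B (c₁ j) (c₂ j) - K.D W (b₁ j))
          + b₂ j * K.Pr W (K.Dt2 B (c₁ j) (c₂ j) - K.D W (b₂ j)))
        - (4 : ℝ) • (K.Dt1 B (b₁ j) (b₂ j) * K.Pr W ((1 / 4 : ℝ) • c₁ j - K.D W (r₁ j))
          + K.Dt2 B (b₁ j) (b₂ j) * K.Pr W ((1 / 4 : ℝ) • c₂ j - K.D W (r₂ j)))
        - (4 : ℝ) • (a₁ j * ((1 / 4 : ℝ) • c₁ j - K.D W (r₁ j))
          + a₂ j * ((1 / 4 : ℝ) • c₂ j - K.D W (r₂ j)))))) := by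
    refine sm_Av X (sm_Av Y ?_)
    refine ((sm.neg ?_).sub (sm.smul 4 ?_)).sub (sm.smul 4 ?_)
    · exact (sm.bd_mul bb₁ (sm_Pr W he₁)).add (sm.bd_mul bb₂ (sm_Pr W he₂))
    · exact (sm.bd_mul bD1 (sm_Pr W hκ₁)).add (sm.bd_mul bD2 (sm_Pr W hκ₂))
    · exact (sm.bd_mul ba₁ hκ₁).add (sm.bd_mul ba₂ hκ₂)
  intro ε' hε'
  filter_upwards [hs ε' hε'] with j hj p
  have h1 := jc_eq K X Y B W a b c d hXY hX hY hB hW cW (a₁ j) (a₂ j) (b₁ j) (b₂ j)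
    (c₁ j) (c₂ j) (r₁ j) (r₂ j) _ _ _ _ (hr₁ j) (hr₂ j) rfl rfl rfl rfl p
  rw [jcL_apply, jcL_apply, jcL_apply] at h1
  rw [h1]
  exact add_le_add_left ((le_abs_self _).trans (hj p)) _

variable {K} [FiniteDimensional ℝ 𝔤] (S : Pert K)

omit [FiniteDimensional ℝ 𝔤] in
theorem indep_smul {B W : 𝔤} (hi : LinearIndependent ℝ ![B, W]) {k : ℝ} (hk : k ≠ 0) :
    LinearIndependent ℝ ![k • B, W] := by
  rw [LinearIndependent.pair_iff] at hi ⊢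
  intro s t hst
  rw [smul_smul] at hst
  obtain ⟨h1, h2⟩ := hi _ _ hst
  exact ⟨(mul_eq_zero.1 h1).resolve_right hk, h2⟩

theorem e2_small2 (B W Z : 𝔤) (k : ℝ) (hk : k ≠ 0) (hBW : K.br B W = 0) (hB : K.Cl (k • B))
    (hW : K.Cl W) (hi : LinearIndependent ℝ ![B, W]) (hZW : K.br Z W = 0) :
    K.sm (fun j => K.R1 (S.h j) B W W (K.br Z B)) := by
  have h := S.e2_small (k • B) W Z (by rw [map_smul, LinearMap.smul_apply, hBW, smul_zero]) hB hW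
    (indep_smul hi hk) hZW
  refine (h.smul (k⁻¹ * k⁻¹)).congr fun j => ?_
  rw [TorusDatum.R1_smul_left, map_smul, K.R1_smul_right, smul_smul, smul_smul]
  have : k⁻¹ * k⁻¹ * k * k = 1 := by field_simp
  rw [this, one_smul]

theorem Q_small2 (B W : 𝔤) (k : ℝ) (hk : k ≠ 0) (hBW : K.br B W = 0) (hB : K.Cl (k • B))
    (hW : K.Cl W) (hi : LinearIndependent ℝ ![B, W]) :
    K.sm (fun j => K.Q (S.h j) B W) := by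
  have h := S.Q_small₁ (k • B) W (by rw [map_smul, LinearMap.smul_apply, hBW, smul_zero]) hB hW
    (indep_smul hi hk)
  refine (h.smul (k⁻¹ * k⁻¹)).congr fun j => ?_
  simp only [Calc.Q, map_smul, LinearMap.smul_apply, K.eta_smul_left, K.eta_smul_right]
  have : k⁻¹ * k⁻¹ * k * k = 1 := by field_simp
  rw [← smul_sub, ← smul_sub, smul_smul, smul_smul, this, one_smul]

theorem e2Z2 (B W Z J : 𝔤) (k : ℝ) (hk : k ≠ 0) (hBW : K.br B W = 0) (hB : K.Cl (k • B))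
    (hW : K.Cl W) (hi : LinearIndependent ℝ ![B, W]) (hWZ : K.br W Z = 0) (hBZ : K.br B Z = J)
    (hBJ : K.br B J = -Z) : K.sm (fun j => K.R1 (S.h j) B W W Z) := by
  have hJW : K.br J W = 0 := by rw [K.br_anti, Pert.kap_brJ K hBW hWZ hBZ, neg_zero]
  have hJB : K.br J B = Z := by rw [K.br_anti, hBJ, neg_neg]
  have h := e2_small2 S B W J k hk hBW hB hW hi hJW
  rw [hJB] at h
  exact h

theorem e2J2 (B W Z J : 𝔤) (k : ℝ) (hk : k ≠ 0) (hBW : K.br B W = 0) (hB : K.Cl (k • B))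
    (hW : K.Cl W) (hi : LinearIndependent ℝ ![B, W]) (hWZ : K.br W Z = 0) (hBZ : K.br B Z = J) :
    K.sm (fun j => K.R1 (S.h j) B W W J) := by
  have hZW : K.br (-Z) W = 0 := by
    rw [map_neg, LinearMap.neg_apply, K.br_anti Z W, hWZ, neg_zero, neg_zero]
  have hZB : K.br (-Z) B = J := by
    rw [map_neg, LinearMap.neg_apply, K.br_anti Z B, hBZ, neg_neg]
  have h := e2_small2 S B W (-Z) k hk hBW hB hW hi hZW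
  rw [hZB] at h
  exact h

theorem kap_small2 (B W Z J : 𝔤) (k : ℝ) (hk : k ≠ 0) (hBW : K.br B W = 0) (hB : K.Cl (k • B))
    (hW : K.Cl W) (hi : LinearIndependent ℝ ![B, W]) (hWZ : K.br W Z = 0) (hBZ : K.br B Z = J)
    (hBJ : K.br B J = -Z) :
    K.sm (fun j => (1 / 4 : ℝ) • K.eta (S.h j) W W Z - K.D W (K.R1 (S.h j) W B B Z)) := by
  have hWJ : K.br W J = 0 := Pert.kap_brJ K hBW hWZ hBZ
  have h1 := e2Z2 S B W Z J k hk hBW hB hW hi hWZ hBZ hBJ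
  have h2 := e2J2 S B W Z J k hk hBW hB hW hi hWZ hBZ
  have h3 : K.sm (fun j => K.D B (K.R1 (S.h j) B W W Z)) :=
    Calc.sm_D B _ h1 (S.bd_R1 [B, B] (by simp) B W W Z)
  have h4 : K.sm (fun j => K.D Z (K.Q (S.h j) B W)) :=
    Calc.sm_D Z _ (Q_small2 S B W k hk hBW hB hW hi) (S.bd_Q [Z, Z] (by simp) B W)
  have h5 := (((h3.sub (h2.smul (1 / 2))).sub h4).sub h2)
  refine h5.congr fun j => ?_
  have h6 := K.idE1 (S.h j) (S.symm j) B W Z J hBW hWZ hWJ hBZ hBJ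
  rw [h6]
  module

theorem J_le2 (X Y B W Z J : 𝔤) (a b c d k : ℝ) (hXY : K.br X Y = 0) (hX : K.Cl X) (hY : K.Cl Y)
    (hB : B = a • X + b • Y) (hW : W = c • X + d • Y) (hk : k ≠ 0) (cB : K.Cl (k • B))
    (cW : K.Cl W) (hi : LinearIndependent ℝ ![B, W]) (hWZ : K.br W Z = 0) (hBZ : K.br B Z = J)
    (hBJ : K.br B J = -Z) :
    ∀ ε' : ℝ, 0 < ε' → ∀ᶠ j in atTop, ∀ p,
      K.ev p (K.Av X (K.Av Y (K.eta (S.h j) B W Z ^ 2 + K.eta (S.h j) B W J ^ 2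
        - K.eta (S.h j) B B Z * K.eta (S.h j) W W Z - K.eta (S.h j) B B J * K.eta (S.h j) W W J
        - (4 : ℝ) • (K.R1 (S.h j) W B B Z ^ 2 + K.R1 (S.h j) W B B J ^ 2)))) ≤
        ε' + K.ev p (K.Av X (K.Av Y
          (G3 K B W (K.eta (S.h j) B W Z) (K.eta (S.h j) B W J)))) := by
  have hYX : K.br Y X = 0 := by rw [K.br_anti, hXY, neg_zero]
  have hBW : K.br B W = 0 := by
    rw [hB, hW]
    simp only [map_add, map_smul, LinearMap.add_apply, LinearMap.smul_apply, K.br_self, hXY, hYX,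
      smul_zero, add_zero]
  have hWB : K.br W B = 0 := by rw [K.br_anti, hBW, neg_zero]
  have hWJ : K.br W J = 0 := by
    have h := K.jac W B Z
    rw [hBZ, hWB, hWZ] at h
    simpa using h
  have hBnZ : K.br B (-Z) = -J := by rw [map_neg, hBZ]
  have bdη : ∀ C D E : 𝔤, K.bd (fun j => K.eta (S.h j) C D E) := fun C D E => by
    have h := S.bd_eta [] (by simp) C D E
    simpa [Calc.Dl] using h
  have bdDη : ∀ A C D E : 𝔤, K.bd (fun j => K.D A (K.eta (S.h j) C D E)) := fun A C D E => by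
    have h := S.bd_eta [A] (by simp) C D E
    simpa [Calc.Dl] using h
  refine J_core2 K X Y B W a b c d hXY hX hY hB hW cW
    (fun j => K.eta (S.h j) B B Z) (fun j => K.eta (S.h j) B B J)
    (fun j => K.eta (S.h j) B W Z) (fun j => K.eta (S.h j) B W J)
    (fun j => K.eta (S.h j) W W Z) (fun j => K.eta (S.h j) W W J)
    (fun j => K.R1 (S.h j) W B B Z) (fun j => K.R1 (S.h j) W B B J)
    ?_ ?_ (bdη _ _ _) (bdη _ _ _) (bdη _ _ _) (bdη _ _ _) (bdDη _ _ _ _) (bdDη _ _ _ _)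
    ?_ ?_ ?_ ?_
  · intro j
    simp only [Calc.R1, Calc.Dt1, hWZ, hBZ, K.eta_zero_right]
    rw [K.eta_comm_of (S.h j) W B Z (S.symm j) hWB, K.eta_comm_of (S.h j) W B J (S.symm j) hWB]
    module
  · intro j
    simp only [Calc.R1, Calc.Dt2, hWJ, hBJ, K.eta_zero_right, K.eta_neg_right]
    rw [K.eta_comm_of (S.h j) W B Z (S.symm j) hWB, K.eta_comm_of (S.h j) W B J (S.symm j) hWB]
    module
  · refine (e2Z2 S B W Z J k hk hBW cB cW hi hWZ hBZ hBJ).congr fun j => ?_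
    simp only [Calc.R1, Calc.Dt1, hWZ, hBZ, K.eta_zero_right]
    module
  · refine (e2J2 S B W Z J k hk hBW cB cW hi hWZ hBZ).congr fun j => ?_
    simp only [Calc.R1, Calc.Dt2, hWJ, hBJ, K.eta_zero_right, K.eta_neg_right]
    module
  · exact kap_small2 S B W Z J k hk hBW cB cW hi hWZ hBZ hBJ
  · exact kap_small2 S B W J (-Z) k hk hBW cB cW hi hWJ hBJ hBnZ

end Pool.Agent.TH109.CG2
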