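import Pool.Agent.TH109.CG2.Side
import Pool.Agent.TH109.CG2.Haar

/-!
Second order rigidity for tori with good weights.
-/

open scoped Matrix.Norms.Frobenius
open Module Pool.Agent.H842R4 Pool.Agent.H842R4.Calc

noncomputable section

namespace Pool.Agent.TH109.CG2

section abstract

variable {P 𝔤 : Type} [NormedAddCommGroup 𝔤] [InnerProductSpace ℝ 𝔤]

variable {K : Calc P 𝔤} {M : Mean K}

theorem comp_of (SX : Side K M) (s0 : SX.ιs) (i : SX.ιF) (V : 𝔤) (hp : Pair K (SX.e i) V)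
    (hV : K.br V (SX.z1 i s0) = 0 ∧ K.br V (SX.z2 i s0) = 0) (A B : 𝔤)
    (hw : Wt K (SX.e i) V 2 0 A B)
    (ho : ∀ s, inner ℝ A (SX.z1 i s) = (0 : ℝ) ∧ inner ℝ A (SX.z2 i s) = (0 : ℝ)) : A = 0 := by
  have hz : ‖SX.z1 i s0‖ = 1 := (SX.orth i).1 (Sum.inl s0)
  have hz0 : SX.z1 i s0 ≠ 0 := by
    intro h
    rw [h, norm_zero] at hz
    exact zero_ne_one hz
  refine mult_one hp hz0 ⟨SX.h1 i s0, SX.h2 i s0, ?_, ?_⟩ hw (ho s0).1 (ho s0).2
  · rw [hV.1, zero_smul]
  · rw [hV.2, zero_smul, neg_zero]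

theorem tri_vals {X e2 e3 : 𝔤} (i : Fin 3) :
    (∃ k, (![e2, e3, X] : Fin 3 → 𝔤) i = (![X, e2, e3] : Fin 3 → 𝔤) k) ∧
    (∃ k, (![e3, X, e2] : Fin 3 → 𝔤) i = (![X, e2, e3] : Fin 3 → 𝔤) k) := by
  fin_cases i
  · exact ⟨⟨1, rfl⟩, ⟨2, rfl⟩⟩
  · exact ⟨⟨2, rfl⟩, ⟨0, rfl⟩⟩
  · exact ⟨⟨0, rfl⟩, ⟨1, rfl⟩⟩

theorem br_smul_zero {V U : 𝔤} (c : ℝ) (h : K.br U V = 0) : K.br V (c • U) = 0 := by
  rw [map_smul, K.br_anti, h, neg_zero, smul_zero]

theorem br_smul_zero' {V U : 𝔤} (c : ℝ) (h : K.br U V = 0) : K.br U (c • V) = 0 := by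
  rw [map_smul, h, smul_zero]

theorem contra3 [FiniteDimensional ℝ 𝔤] (M : Mean K) (S : Pert K)
    (hI : ∀ (X A B : 𝔤) (μ : ℝ), K.Cl X → ‖A‖ = 1 → inner ℝ A B = (0 : ℝ) →
      K.br X A = μ • B → K.br X B = -(μ • A) → ∃ m : ℤ, μ = m)
    (hSQ : ∀ X Y A : 𝔤, K.br X A = 0 → K.br Y A = 0 →
      CG.sq A ∈ Submodule.span ℝ (CG.sq '' {C | K.Cl C ∧ K.br X C = 0 ∧ K.br Y C = 0}))
    {X Y : 𝔤} (h : Pair K X Y) : False := by
  have hX0 := h.ne
  have hY0 := h.swap.ne
  have hXY := h.brXY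
  have hYX := h.swap.brXY
  by_cases hX : ∃ A B, A ≠ 0 ∧ Wt K X Y 2 0 A B
  · obtain ⟨A, B, hA0, hAB⟩ := hX
    obtain ⟨e2, e3, tX, y2, y3⟩ := exists_tri h hA0 hAB
    have x2' : K.br e2 Y = 0 := by rw [K.br_anti, y2, neg_zero]
    have x3' : K.br e3 Y = 0 := by rw [K.br_anti, y3, neg_zero]
    have p2 : Pair K e2 Y := h.rot tX y3
    have p3 : Pair K e3 Y := p2.rot tX.cyc hYX
    by_cases hY : ∃ A B, A ≠ 0 ∧ Wt K Y X 2 0 A B
    · obtain ⟨A', B', hA0', hAB'⟩ := hY
      obtain ⟨f2, f3, tY, x2, x3⟩ := exists_tri h.swap hA0' hAB'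
      obtain ⟨c22, c23, c32, c33⟩ := tri_comm h tX tY y2 y3 x2 x3
      have hpp : ∀ U, Pair K U Y → K.br U f3 = 0 →
          Pair K U f2 ∧ Pair K U f3 := by
        intro U hU h3
        have q2 : Pair K f2 U := hU.swap.rot tY h3
        exact ⟨q2.swap, (q2.rot tY.cyc hU.brXY).swap⟩
      have hc : ∀ i j, K.br ((![X, e2, e3] : Fin 3 → 𝔤) i) ((![Y, f2, f3] : Fin 3 → 𝔤) j) = 0 := by
        intro i j
        fin_cases i <;> fin_cases j
        · exact hXY
        · exact x2
        · exact x3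
        · exact x2'
        · exact c22
        · exact c23
        · exact x3'
        · exact c32
        · exact c33
      have hp : ∀ i j, Pair K ((![X, e2, e3] : Fin 3 → 𝔤) i) ((![Y, f2, f3] : Fin 3 → 𝔤) j) := by
        intro i j
        fin_cases i <;> fin_cases j
        · exact h
        · exact (hpp X h x3).1
        · exact (hpp X h x3).2
        · exact p2
        · exact (hpp e2 p2 c23).1
        · exact (hpp e2 p2 c23).2
        · exact p3
        · exact (hpp e3 p3 c33).1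
        · exact (hpp e3 p3 c33).2
      let SX : Side K M := tripleSide X e2 e3 tX hX0
      let SY : Side K M := tripleSide Y f2 f3 tY hY0
      have a1 : ∀ (i : Fin 3) (j : Fin 3) (s : Unit), K.br (SY.e j) (SX.z1 i s) = 0 ∧
          K.br (SY.e j) (SX.z2 i s) = 0 := by
        intro i j s
        obtain ⟨⟨k, hk⟩, ⟨l, hl⟩⟩ := tri_vals (X := X) (e2 := e2) (e3 := e3) i
        constructor
        · show K.br ((![Y, f2, f3] : Fin 3 → 𝔤) j) (‖X‖⁻¹ • (![e2, e3, X] : Fin 3 → 𝔤) i) = 0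
          rw [hk]
          exact br_smul_zero _ (hc k j)
        · show K.br ((![Y, f2, f3] : Fin 3 → 𝔤) j) (‖X‖⁻¹ • (![e3, X, e2] : Fin 3 → 𝔤) i) = 0
          rw [hl]
          exact br_smul_zero _ (hc l j)
      have a2 : ∀ (i : Fin 3) (j : Fin 3) (s : Unit), K.br (SX.e i) (SY.z1 j s) = 0 ∧
          K.br (SX.e i) (SY.z2 j s) = 0 := by
        intro i j s
        obtain ⟨⟨k, hk⟩, ⟨l, hl⟩⟩ := tri_vals (X := Y) (e2 := f2) (e3 := f3) j
        constructor
        · show K.br ((![X, e2, e3] : Fin 3 → 𝔤) i) (‖Y‖⁻¹ • (![f2, f3, Y] : Fin 3 → 𝔤) j) = 0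
          rw [hk]
          exact br_smul_zero' _ (hc i k)
        · show K.br ((![X, e2, e3] : Fin 3 → 𝔤) i) (‖Y‖⁻¹ • (![f3, Y, f2] : Fin 3 → 𝔤) j) = 0
          rw [hl]
          exact br_smul_zero' _ (hc i l)
      exact assemble S SX SY hI hSQ hp a1 a2
        (fun i j A B hw ho => comp_of SX () i _ (hp i j) (a1 i j ()) A B hw ho)
        (fun i j A B hw ho => comp_of SY () j _ (hp i j).swap (a2 i j ()) A B hw ho)
    · have hN : ∀ A B, Wt K Y X 2 0 A B → A = 0 := by
        intro A B hw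
        by_contra hA
        exact hY ⟨A, B, hA, hw⟩
      have hc : ∀ i, K.br ((![X, e2, e3] : Fin 3 → 𝔤) i) Y = 0 := by
        intro i
        fin_cases i
        · exact hXY
        · exact x2'
        · exact x3'
      have hp : ∀ i, Pair K ((![X, e2, e3] : Fin 3 → 𝔤) i) Y := by
        intro i
        fin_cases i
        · exact h
        · exact p2
        · exact p3
      have hN' : ∀ i, ∀ A B, Wt K Y ((![X, e2, e3] : Fin 3 → 𝔤) i) 2 0 A B → A = 0 := by
        have n2 := NoX_rot hN tX y3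
        have n3 := NoX_rot n2 tX.cyc hYX
        intro i
        fin_cases i
        · exact hN
        · exact n2
        · exact n3
      let SX : Side K M := tripleSide X e2 e3 tX hX0
      let SY : Side K M := trivialSide Y
      have a1 : ∀ (i : Fin 3) (j : Unit) (s : Unit), K.br (SY.e j) (SX.z1 i s) = 0 ∧
          K.br (SY.e j) (SX.z2 i s) = 0 := by
        intro i j s
        obtain ⟨⟨k, hk⟩, ⟨l, hl⟩⟩ := tri_vals (X := X) (e2 := e2) (e3 := e3) i
        constructor
        · show K.br Y (‖X‖⁻¹ • (![e2, e3, X] : Fin 3 → 𝔤) i) = 0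
          rw [hk]
          exact br_smul_zero _ (hc k)
        · show K.br Y (‖X‖⁻¹ • (![e3, X, e2] : Fin 3 → 𝔤) i) = 0
          rw [hl]
          exact br_smul_zero _ (hc l)
      exact assemble S SX SY hI hSQ (fun i _ => hp i) a1 (fun i j s => Empty.elim s)
        (fun i j A B hw ho => comp_of SX () i _ (hp i) (a1 i j ()) A B hw ho)
        (fun i j A B hw _ => hN' i A B hw)
  · have hNX : ∀ A B, Wt K X Y 2 0 A B → A = 0 := by
      intro A B hw
      by_contra hA
      exact hX ⟨A, B, hA, hw⟩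
    by_cases hY : ∃ A B, A ≠ 0 ∧ Wt K Y X 2 0 A B
    · obtain ⟨A', B', hA0', hAB'⟩ := hY
      obtain ⟨f2, f3, tY, x2, x3⟩ := exists_tri h.swap hA0' hAB'
      have hc : ∀ j, K.br X ((![Y, f2, f3] : Fin 3 → 𝔤) j) = 0 := by
        intro j
        fin_cases j
        · exact hXY
        · exact x2
        · exact x3
      have q2 : Pair K f2 X := h.swap.rot tY x3
      have q3 : Pair K f3 X := q2.rot tY.cyc hXY
      have hp : ∀ j, Pair K X ((![Y, f2, f3] : Fin 3 → 𝔤) j) := by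
        intro j
        fin_cases j
        · exact h
        · exact q2.swap
        · exact q3.swap
      have hN' : ∀ j, ∀ A B, Wt K X ((![Y, f2, f3] : Fin 3 → 𝔤) j) 2 0 A B → A = 0 := by
        have n2 := NoX_rot hNX tY x3
        have n3 := NoX_rot n2 tY.cyc hXY
        intro j
        fin_cases j
        · exact hNX
        · exact n2
        · exact n3
      let SX : Side K M := trivialSide X
      let SY : Side K M := tripleSide Y f2 f3 tY hY0
      have a2 : ∀ (i : Unit) (j : Fin 3) (s : Unit), K.br (SX.e i) (SY.z1 j s) = 0 ∧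
          K.br (SX.e i) (SY.z2 j s) = 0 := by
        intro i j s
        obtain ⟨⟨k, hk⟩, ⟨l, hl⟩⟩ := tri_vals (X := Y) (e2 := f2) (e3 := f3) j
        constructor
        · show K.br X (‖Y‖⁻¹ • (![f2, f3, Y] : Fin 3 → 𝔤) j) = 0
          rw [hk]
          exact br_smul_zero' _ (hc k)
        · show K.br X (‖Y‖⁻¹ • (![f3, Y, f2] : Fin 3 → 𝔤) j) = 0
          rw [hl]
          exact br_smul_zero' _ (hc l)
      exact assemble S SX SY hI hSQ (fun _ j => hp j) (fun i j s => Empty.elim s) a2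
        (fun i j A B hw _ => hN' j A B hw)
        (fun i j A B hw ho => comp_of SY () j _ (hp j).swap (a2 i j ()) A B hw ho)
    · have hNY : ∀ A B, Wt K Y X 2 0 A B → A = 0 := by
        intro A B hw
        by_contra hA
        exact hY ⟨A, B, hA, hw⟩
      let SX : Side K M := trivialSide X
      let SY : Side K M := trivialSide Y
      exact assemble S SX SY hI hSQ (fun _ _ => h) (fun i j s => Empty.elim s)
        (fun i j s => Empty.elim s) (fun _ _ A B hw _ => hNX A B hw)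
        (fun _ _ A B hw _ => hNY A B hw)

end abstract

open Pool.Agent.TH109.CG

variable {N : ℕ} {G : CGroup N}

/-- The weights of the 2-torus generated by the commuting elements `X`, `Y` of the Lie algebra are
zero, primitive, `(±2, 0)` or `(0, ±2)`; in the last two cases with the coroot condition: if
`A ≠ 0`, `B` are elements of the Lie algebra with `[X, A] = m B`, `[X, B] = - m A`,
`[Y, A] = n B`, `[Y, B] = - n A` for integers `m`, `n`, then `m = n = 0`, or `m`, `n` are coprime,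
or `n = 0`, `m = ±2` and `[A, B]` is a multiple of `X`, or `m = 0`, `n = ±2` and `[A, B]` is a
multiple of `Y`. -/
def GoodWeights (X Y : lieAlg G) : Prop :=
  ∀ (m n : ℤ) (A B : lieAlg G), A ≠ 0 →
    brk X A = (m : ℝ) • B → brk X B = -((m : ℝ) • A) →
    brk Y A = (n : ℝ) • B → brk Y B = -((n : ℝ) • A) →
      (m = 0 ∧ n = 0) ∨ IsCoprime m n ∨
        (n = 0 ∧ (m = 2 ∨ m = -2) ∧ ∃ c : ℝ, brk A B = c • X) ∨
        (m = 0 ∧ (n = 2 ∨ n = -2) ∧ ∃ c : ℝ, brk A B = c • Y)

/-- The bi-invariant metric of a compact matrix group containing a closed 2-torus with good weights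
is rigid to second order. -/
theorem main2 (G : CGroup N) (X Y : lieAlg G) (ind : LinearIndependent ℝ ![X, Y])
    (hXY : brk X Y = 0) (hX : NormedSpace.exp ((2 * Real.pi) • (X : Mat N)) = 1)
    (hY : NormedSpace.exp ((2 * Real.pi) • (Y : Mat N)) = 1) (hp : GoodWeights X Y) :
    SecondOrderRigid G := by
  refine rigid_of_contra fun S => ?_
  refine contra3 (haarMean G) S ?_ (fun X Y A h1 h2 => sq_mem X Y A h1 h2)
    (X := X) (Y := Y) ⟨fun p => (move_fix_iff X (2 * Real.pi) p).2 hX,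
      fun p => (move_fix_iff Y (2 * Real.pi) p).2 hY, hXY, ind,
      fun m n A B hA hw => hp m n A B hA hw.1 hw.2.1 hw.2.2.1 hw.2.2.2⟩
  intro X A B μ cX hA hAB h1 h2
  have hX' : NormedSpace.exp ((2 * Real.pi) • (X : Mat N)) = 1 :=
    (move_fix_iff X (2 * Real.pi) (1 : Pt G)).1 (cX 1)
  exact int_of_closed X A B hX' μ hA hAB h1 h2

end Pool.Agent.TH109.CG2
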