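import Pool.Agent.TH109.CG2.Mean

/-!
The mean of the `W`-invariant root terms of the three tori of an `su(2)`-triple is nonpositive.
-/

open MeasureTheory Filter Topology Pool.Agent.H842R4 Pool.Agent.H842R4.Calc

noncomputable section

namespace Pool.Agent.TH109.CG2

variable {P 𝔤 : Type} [NormedAddCommGroup 𝔤] [InnerProductSpace ℝ 𝔤]

variable {K : Calc P 𝔤} (M : Mean K)

theorem D_swap (A B C : 𝔤) (h : K.br A B = C) (f : K.𝒜) :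
    K.D A (K.D B f) = K.D B (K.D A f) + K.D C f := by
  have := K.D_br A B f
  rw [h] at this
  rw [← this]
  abel

/-- the Killing operator on divergence free fields -/
theorem killing (b1 b2 b3 : 𝔤) (h12 : K.br b1 b2 = b3) (h23 : K.br b2 b3 = b1)
    (h31 : K.br b3 b1 = b2) (v1 v2 v3 : K.𝒜)
    (hdiv : K.D b1 v1 + K.D b2 v2 + K.D b3 v3 = 0) :
    M.E ((2 : ℝ) • (v1 ^ 2 + v2 ^ 2 + v3 ^ 2)
      - (((2 : ℝ) • K.D b1 v2 - v3) ^ 2 + ((2 : ℝ) • K.D b1 v3 + v2) ^ 2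
        + ((2 : ℝ) • K.D b2 v3 - v1) ^ 2 + ((2 : ℝ) • K.D b2 v1 + v3) ^ 2
        + ((2 : ℝ) • K.D b3 v1 - v2) ^ 2 + ((2 : ℝ) • K.D b3 v2 + v1) ^ 2)) ≤ 0 := by
  obtain ⟨Y, hY⟩ : ∃ Y : K.𝒜, Y = (4 : ℝ) • (K.D b1 v1 ^ 2 + K.D b2 v2 ^ 2 + K.D b3 v3 ^ 2)
      + (((2 : ℝ) • K.D b1 v2 - v3) + ((2 : ℝ) • K.D b2 v1 + v3)) ^ 2
      + (((2 : ℝ) • K.D b2 v3 - v1) + ((2 : ℝ) • K.D b3 v2 + v1)) ^ 2
      + (((2 : ℝ) • K.D b3 v1 - v2) + ((2 : ℝ) • K.D b1 v3 + v2)) ^ 2 := ⟨_, rfl⟩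
  have hY0 : 0 ≤ M.E Y := by
    apply M.E_nonneg
    intro p
    rw [hY]
    simp only [map_add, map_sub, map_mul, map_smul, map_pow, smul_eq_mul]
    positivity
  -- products
  have q12 : M.E (K.D b1 v2 * K.D b2 v1) = M.E (K.D b1 v1 * K.D b2 v2) - M.E (v2 * K.D b3 v1) := by
    have e1 := M.parts b1 (K.D b2 v1) v2
    have e2 := M.parts b2 v2 (K.D b1 v1)
    rw [D_swap b1 b2 b3 h12] at e1
    rw [add_mul, map_add, mul_comm (K.D b2 (K.D b1 v1)) v2, e2, mul_comm (K.D b2 v1),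
      mul_comm (K.D b2 v2), mul_comm (K.D b3 v1)] at e1
    linarith
  have q23 : M.E (K.D b2 v3 * K.D b3 v2) = M.E (K.D b2 v2 * K.D b3 v3) - M.E (v3 * K.D b1 v2) := by
    have e1 := M.parts b2 (K.D b3 v2) v3
    have e2 := M.parts b3 v3 (K.D b2 v2)
    rw [D_swap b2 b3 b1 h23] at e1
    rw [add_mul, map_add, mul_comm (K.D b3 (K.D b2 v2)) v3, e2, mul_comm (K.D b3 v2),
      mul_comm (K.D b3 v3), mul_comm (K.D b1 v2)] at e1
    linarith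
  have q31 : M.E (K.D b3 v1 * K.D b1 v3) = M.E (K.D b3 v3 * K.D b1 v1) - M.E (v1 * K.D b2 v3) := by
    have e1 := M.parts b3 (K.D b1 v3) v1
    have e2 := M.parts b1 v1 (K.D b3 v3)
    rw [D_swap b3 b1 b2 h31] at e1
    rw [add_mul, map_add, mul_comm (K.D b1 (K.D b3 v3)) v1, e2, mul_comm (K.D b1 v3),
      mul_comm (K.D b1 v1), mul_comm (K.D b2 v3)] at e1
    linarith
  have a1 : M.E (v1 * K.D b2 v3) = - M.E (v3 * K.D b2 v1) := by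
    rw [M.parts, mul_comm (K.D b2 v1)]
  have a2 : M.E (v2 * K.D b3 v1) = - M.E (v1 * K.D b3 v2) := by
    rw [M.parts, mul_comm (K.D b3 v2)]
  have a3 : M.E (v3 * K.D b1 v2) = - M.E (v2 * K.D b1 v3) := by
    rw [M.parts, mul_comm (K.D b1 v3)]
  have hd0 : M.E ((K.D b1 v1 + K.D b2 v2 + K.D b3 v3) ^ 2) = 0 := by
    rw [hdiv]; simp
  have hR : (2 : ℝ) • (v1 ^ 2 + v2 ^ 2 + v3 ^ 2)
      - (((2 : ℝ) • K.D b1 v2 - v3) ^ 2 + ((2 : ℝ) • K.D b1 v3 + v2) ^ 2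
        + ((2 : ℝ) • K.D b2 v3 - v1) ^ 2 + ((2 : ℝ) • K.D b2 v1 + v3) ^ 2
        + ((2 : ℝ) • K.D b3 v1 - v2) ^ 2 + ((2 : ℝ) • K.D b3 v2 + v1) ^ 2) =
      - Y + (4 : ℝ) • ((K.D b1 v1 + K.D b2 v2 + K.D b3 v3) ^ 2)
        + (8 : ℝ) • (K.D b1 v2 * K.D b2 v1 - K.D b1 v1 * K.D b2 v2)
        + (8 : ℝ) • (K.D b2 v3 * K.D b3 v2 - K.D b2 v2 * K.D b3 v3)
        + (8 : ℝ) • (K.D b3 v1 * K.D b1 v3 - K.D b3 v3 * K.D b1 v1)
        + (4 : ℝ) • (v3 * K.D b1 v2 - v3 * K.D b2 v1 + v1 * K.D b2 v3 - v1 * K.D b3 v2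
          + v2 * K.D b3 v1 - v2 * K.D b1 v3) := by
    rw [hY]
    apply K.ext_ev
    intro q
    simp only [map_add, map_sub, map_mul, map_smul, map_pow, map_neg, smul_eq_mul]
    ring
  rw [hR]
  simp only [map_add, map_sub, map_neg, map_smul, smul_eq_mul, hd0, q12, q23, q31]
  linarith

/-- the averaged inequality -/
theorem triple (b1 b2 b3 W : 𝔤) (h12 : K.br b1 b2 = b3) (h23 : K.br b2 b3 = b1)
    (h31 : K.br b3 b1 = b2) (cW : K.Cl W) (hW1 : K.br W b1 = 0) (hW2 : K.br W b2 = 0)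
    (hW3 : K.br W b3 = 0) (l : ℝ) (h : 𝔤 →ₗ[ℝ] 𝔤 →ₗ[ℝ] K.𝒜) (hs : ∀ A B, h A B = h B A) :
    M.E (G3 K b1 W (K.eta h b1 W (l • b2)) (K.eta h b1 W (l • b3)))
    + M.E (G3 K b2 W (K.eta h b2 W (l • b3)) (K.eta h b2 W (l • b1)))
    + M.E (G3 K b3 W (K.eta h b3 W (l • b1)) (K.eta h b3 W (l • b2))) ≤ 0 := by
  have h1W : K.br b1 W = 0 := by rw [K.br_anti, hW1, neg_zero]
  have h2W : K.br b2 W = 0 := by rw [K.br_anti, hW2, neg_zero]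
  have h3W : K.br b3 W = 0 := by rw [K.br_anti, hW3, neg_zero]
  -- `ω_i`
  set ω : 𝔤 → K.𝒜 := fun b => K.Av W (h W b) with hω
  have key : ∀ a b c : 𝔤, K.br a W = 0 → K.br W b = 0 → K.br W a = 0 → K.br a b = c →
      K.Av W (K.eta h a W (l • b)) = (l / 2) • (K.D a (ω b) - K.D b (ω a) - ω c) := by
    intro a b c ha hb ha' hab
    rw [K.eta_smul_right, map_smul]
    have e1 : K.Av W (K.eta h a W b) = (1 / 2 : ℝ) • (K.D a (ω b) - K.D b (ω a) - ω c) := by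
      simp only [Calc.eta, ha, hb, hab, map_zero, LinearMap.zero_apply, map_smul, map_add,
        map_sub, hω]
      rw [K.Av_D W cW, ← K.D_Av_comm W a ha', ← K.D_Av_comm W b hb, hs a W, hs c W]
      module
    rw [e1, smul_smul]
    congr 1
    ring
  set v1 := K.D b2 (ω b3) - K.D b3 (ω b2) - ω b1 with hv1
  set v2 := K.D b3 (ω b1) - K.D b1 (ω b3) - ω b2 with hv2
  set v3 := K.D b1 (ω b2) - K.D b2 (ω b1) - ω b3 with hv3
  have ωneg : ∀ b, ω (-b) = - ω b := by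
    intro b
    simp only [hω, map_neg]
  have h21 : K.br b2 b1 = -b3 := by rw [K.br_anti, h12]
  have h32 : K.br b3 b2 = -b1 := by rw [K.br_anti, h23]
  have h13 : K.br b1 b3 = -b2 := by rw [K.br_anti, h31]
  have f12 : K.Av W (K.eta h b1 W (l • b2)) = (l / 2) • v3 := key b1 b2 b3 h1W hW2 hW1 h12
  have f13 : K.Av W (K.eta h b1 W (l • b3)) = -((l / 2) • v2) := by
    rw [key b1 b3 (-b2) h1W hW3 hW1 h13, ωneg, ← smul_neg]
    congr 1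
    rw [hv2]
    abel
  have f23 : K.Av W (K.eta h b2 W (l • b3)) = (l / 2) • v1 := key b2 b3 b1 h2W hW3 hW2 h23
  have f21 : K.Av W (K.eta h b2 W (l • b1)) = -((l / 2) • v3) := by
    rw [key b2 b1 (-b3) h2W hW1 hW2 h21, ωneg, ← smul_neg]
    congr 1
    rw [hv3]
    abel
  have f31 : K.Av W (K.eta h b3 W (l • b1)) = (l / 2) • v2 := key b3 b1 b2 h3W hW1 hW3 h31
  have f32 : K.Av W (K.eta h b3 W (l • b2)) = -((l / 2) • v1) := by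
    rw [key b3 b2 (-b1) h3W hW2 hW3 h32, ωneg, ← smul_neg]
    congr 1
    rw [hv1]
    abel
  have hdiv : K.D b1 v1 + K.D b2 v2 + K.D b3 v3 = 0 := by
    rw [hv1, hv2, hv3]
    simp only [map_sub]
    rw [D_swap b1 b2 b3 h12, D_swap b2 b3 b1 h23, D_swap b3 b1 b2 h31]
    abel
  have hk := killing M b1 b2 b3 h12 h23 h31 v1 v2 v3 hdiv
  have e : G3 K b1 W (K.eta h b1 W (l • b2)) (K.eta h b1 W (l • b3))
      + G3 K b2 W (K.eta h b2 W (l • b3)) (K.eta h b2 W (l • b1))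
      + G3 K b3 W (K.eta h b3 W (l • b1)) (K.eta h b3 W (l • b2)) =
      ((l / 2) ^ 2) • ((2 : ℝ) • (v1 ^ 2 + v2 ^ 2 + v3 ^ 2)
      - (((2 : ℝ) • K.D b1 v2 - v3) ^ 2 + ((2 : ℝ) • K.D b1 v3 + v2) ^ 2
        + ((2 : ℝ) • K.D b2 v3 - v1) ^ 2 + ((2 : ℝ) • K.D b2 v1 + v3) ^ 2
        + ((2 : ℝ) • K.D b3 v1 - v2) ^ 2 + ((2 : ℝ) • K.D b3 v2 + v1) ^ 2)) := by
    simp only [G3, f12, f13, f23, f21, f31, f32, Calc.Dt1, Calc.Dt2, map_neg, map_smul]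
    apply K.ext_ev
    intro q
    simp only [map_add, map_sub, map_mul, map_smul, map_pow, map_neg, smul_eq_mul]
    ring
  rw [← map_add, ← map_add, e, map_smul, smul_eq_mul]
  exact mul_nonpos_of_nonneg_of_nonpos (sq_nonneg _) hk

/-- for a closed direction `B` the `W`-invariant root term has nonpositive mean -/
theorem G3_nonpos (B W : 𝔤) (cB : K.Cl B) (b₁ b₂ : K.𝒜) : M.E (G3 K B W b₁ b₂) ≤ 0 := by
  have h1 : 0 ≤ M.E (K.Av B ((K.D B (K.Av W b₁) - (1 / 2 : ℝ) • (K.Av W b₂)) ^ 2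
      + (K.D B (K.Av W b₂) + (1 / 2 : ℝ) • (K.Av W b₁)) ^ 2
      - (1 / 4 : ℝ) • ((K.Av W b₁) ^ 2 + (K.Av W b₂) ^ 2))) :=
    M.E_nonneg _ fun p => K.av_wirt B cB _ _ p
  rw [M.E_Av _ cB] at h1
  have e : G3 K B W b₁ b₂ = (-4 : ℝ) • ((K.D B (K.Av W b₁) - (1 / 2 : ℝ) • (K.Av W b₂)) ^ 2
      + (K.D B (K.Av W b₂) + (1 / 2 : ℝ) • (K.Av W b₁)) ^ 2
      - (1 / 4 : ℝ) • ((K.Av W b₁) ^ 2 + (K.Av W b₂) ^ 2)) := by
    simp only [G3, Calc.Dt1, Calc.Dt2]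
    apply K.ext_ev
    intro q
    simp only [map_add, map_sub, map_mul, map_smul, map_pow, map_neg, smul_eq_mul]
    ring
  rw [e, map_smul, smul_eq_mul]
  linarith

end Pool.Agent.TH109.CG2
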