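import Pool.Agent.TH109.CG2.Alg

/-!
Families of conjugate tori and the contradiction for tori with good weights.
-/

open Module Pool.Agent.H842R4 Pool.Agent.H842R4.Calc

noncomputable section

namespace Pool.Agent.TH109.CG2

variable {P 𝔤 : Type} [NormedAddCommGroup 𝔤] [InnerProductSpace ℝ 𝔤]

/-- a family of conjugate directions with their special root vectors -/
structure Side (K : Calc P 𝔤) (M : Mean K) where
  ιF : Type
  ιs : Type
  fF : Fintype ιF
  nF : Nonempty ιF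
  fs : Fintype ιs
  e : ιF → 𝔤
  z1 : ιF → ιs → 𝔤
  z2 : ιF → ιs → 𝔤
  h1 : ∀ i s, K.br (e i) (z1 i s) = (2 : ℝ) • z2 i s
  h2 : ∀ i s, K.br (e i) (z2 i s) = -((2 : ℝ) • z1 i s)
  orth : ∀ i, Orthonormal ℝ (Sum.elim (z1 i) (z2 i))
  avg : ∀ W, K.Cl W → (∀ i, K.br W (e i) = 0) →
    (∀ i s, K.br W (z1 i s) = 0 ∧ K.br W (z2 i s) = 0) →
    ∀ h : 𝔤 →ₗ[ℝ] 𝔤 →ₗ[ℝ] K.𝒜, (∀ A B, h A B = h B A) →
    ∑ i, ∑ s, M.E (G3 K ((1 / 2 : ℝ) • e i) W (K.eta h ((1 / 2 : ℝ) • e i) W (z1 i s))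
      (K.eta h ((1 / 2 : ℝ) • e i) W (z2 i s))) ≤ 0

attribute [instance] Side.fF Side.nF Side.fs

variable {K : Calc P 𝔤} {M : Mean K}

/-- one direction without special roots -/
def trivialSide (X : 𝔤) : Side K M where
  ιF := Unit
  ιs := Empty
  fF := inferInstance
  nF := inferInstance
  fs := inferInstance
  e := fun _ => X
  z1 := fun _ => Empty.elim
  z2 := fun _ => Empty.elim
  h1 := fun _ s => s.elim
  h2 := fun _ s => s.elim
  orth := fun _ => by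
    rw [orthonormal_iff_ite]
    rintro (a | a)
    · exact a.elim
    · exact a.elim
  avg := fun W _ _ _ h _ => by simp

theorem Tri.inner12 {e1 e2 e3 : 𝔤} (h : Tri K e1 e2 e3) : inner ℝ e2 e3 = (0 : ℝ) := by
  have h1 := br_self_inner K e1 e2
  rw [h.h12, real_inner_smul_left, real_inner_comm] at h1
  linarith

theorem Tri.norm_eq {e1 e2 e3 : 𝔤} (h : Tri K e1 e2 e3) : ‖e2‖ = ‖e1‖ := by
  have h1 : inner ℝ e1 e1 = (inner ℝ e2 e2 : ℝ) := by
    have a := K.ad_inv e2 e3 e1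
    rw [h.h23, h.h31, real_inner_smul_left, real_inner_smul_right] at a
    linarith
  rw [real_inner_self_eq_norm_sq, real_inner_self_eq_norm_sq] at h1
  exact (pow_left_inj₀ (norm_nonneg _) (norm_nonneg _) two_ne_zero).1 h1.symm

theorem orth_pair {u v : 𝔤} {l : ℝ} (hu : l * ‖u‖ = 1) (hv : l * ‖v‖ = 1)
    (huv : inner ℝ u v = (0 : ℝ)) :
    Orthonormal ℝ (Sum.elim (fun _ : Unit => l • u) (fun _ : Unit => l • v)) := by
  rw [orthonormal_iff_ite]
  have a : l * (l * ‖u‖ ^ 2) = 1 := by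
    have : l * (l * ‖u‖ ^ 2) = (l * ‖u‖) * (l * ‖u‖) := by ring
    rw [this, hu, one_mul]
  have b : l * (l * ‖v‖ ^ 2) = 1 := by
    have : l * (l * ‖v‖ ^ 2) = (l * ‖v‖) * (l * ‖v‖) := by ring
    rw [this, hv, one_mul]
  have hvu : inner ℝ v u = (0 : ℝ) := by rw [real_inner_comm]; exact huv
  rintro (_ | _) (_ | _)
  · rw [if_pos rfl]
    show inner ℝ (l • u) (l • u) = (1 : ℝ)
    rw [real_inner_smul_left, real_inner_smul_right, real_inner_self_eq_norm_sq]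
    exact a
  · simp [real_inner_smul_left, real_inner_smul_right, huv]
  · simp [real_inner_smul_left, real_inner_smul_right, hvu]
  · rw [if_pos rfl]
    show inner ℝ (l • v) (l • v) = (1 : ℝ)
    rw [real_inner_smul_left, real_inner_smul_right, real_inner_self_eq_norm_sq]
    exact b

/-- the three directions of an `su(2)`-triple -/
def tripleSide (e1 e2 e3 : 𝔤) (h : Tri K e1 e2 e3) (h0 : e1 ≠ 0) : Side K M where
  ιF := Fin 3
  ιs := Unit
  fF := inferInstance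
  nF := inferInstance
  fs := inferInstance
  e := ![e1, e2, e3]
  z1 := fun i _ => ‖e1‖⁻¹ • (![e2, e3, e1] : Fin 3 → 𝔤) i
  z2 := fun i _ => ‖e1‖⁻¹ • (![e3, e1, e2] : Fin 3 → 𝔤) i
  h1 := by
    intro i _
    rw [map_smul, smul_comm]
    congr 1
    fin_cases i
    · exact h.h12
    · exact h.h23
    · exact h.h31
  h2 := by
    intro i _
    rw [map_smul, smul_comm, ← smul_neg]
    congr 1
    fin_cases i
    · show K.br e1 e3 = -((2 : ℝ) • e2)
      rw [K.br_anti, h.h31]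
    · show K.br e2 e1 = -((2 : ℝ) • e3)
      rw [K.br_anti, h.h12]
    · show K.br e3 e2 = -((2 : ℝ) • e1)
      rw [K.br_anti, h.h23]
  orth := by
    have n1 : ‖e1‖⁻¹ * ‖e1‖ = 1 := inv_mul_cancel₀ (norm_ne_zero_iff.2 h0)
    have n2 : ‖e1‖⁻¹ * ‖e2‖ = 1 := by rw [h.norm_eq]; exact n1
    have n3 : ‖e1‖⁻¹ * ‖e3‖ = 1 := by rw [h.cyc.norm_eq]; exact n2
    intro i
    fin_cases i
    · exact orth_pair n2 n3 h.inner12
    · exact orth_pair n3 n1 h.cyc.inner12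
    · exact orth_pair n1 n2 h.cyc.cyc.inner12
  avg := by
    intro W cW he hz hh hs
    have w1 : K.br W ((1 / 2 : ℝ) • e1) = 0 := by
      have := he 0
      rw [map_smul]
      exact (congrArg _ this).trans (smul_zero _)
    have w2 : K.br W ((1 / 2 : ℝ) • e2) = 0 := by
      have := he 1
      rw [map_smul]
      exact (congrArg _ this).trans (smul_zero _)
    have w3 : K.br W ((1 / 2 : ℝ) • e3) = 0 := by
      have := he 2
      rw [map_smul]
      exact (congrArg _ this).trans (smul_zero _)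
    have c : ∀ u v x : 𝔤, K.br u v = (2 : ℝ) • x →
        K.br ((1 / 2 : ℝ) • u) ((1 / 2 : ℝ) • v) = (1 / 2 : ℝ) • x := by
      intro u v x hx
      rw [map_smul, map_smul, LinearMap.smul_apply, hx, smul_smul, smul_smul]
      congr 1
      norm_num
    have ht := triple M ((1 / 2 : ℝ) • e1) ((1 / 2 : ℝ) • e2) ((1 / 2 : ℝ) • e3) W
      (c _ _ _ h.h12) (c _ _ _ h.h23) (c _ _ _ h.h31) cW w1 w2 w3 (2 * ‖e1‖⁻¹) hh hs
    have e : ∀ u : 𝔤, (2 * ‖e1‖⁻¹) • ((1 / 2 : ℝ) • u) = ‖e1‖⁻¹ • u := by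
      intro u
      rw [smul_smul]
      congr 1
      ring
    simp only [e] at ht
    rw [Fin.sum_univ_three]
    simp only [Finset.univ_unique, Finset.sum_singleton]
    exact ht

theorem NoX_rot {X Y f2 f3 : 𝔤} (hN : ∀ A B, Wt K X Y 2 0 A B → A = 0) (ht : Tri K Y f2 f3)
    (hX : K.br X f3 = 0) : ∀ A B, Wt K X f2 2 0 A B → A = 0 := by
  intro A B hw
  have h2 : K.Ad f3 (Real.pi / 4) Y = f2 := by
    refine Ad_quarter K f3 Y f2 ht.h31 ?_
    rw [K.br_anti, ht.h23]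
  have h3 : K.Ad f3 (Real.pi / 4) X = X := K.Ad_fix _ _ _ (by rw [K.br_anti, hX, neg_zero])
  have hw' : Wt K (K.Ad f3 (Real.pi / 4) X) (K.Ad f3 (Real.pi / 4) Y) 2 0 A B := by
    rw [h2, h3]; exact hw
  have h4 := hN _ _ (hw'.ad f3 (Real.pi / 4))
  rw [← Ad_inv2 K f3 (Real.pi / 4) A, h4]
  exact K.Ad_fix _ _ 0 (map_zero _)

/-- The special roots of the pair `(i, j)`. -/
def spRoots (SX SY : Side K M) (hpair : ∀ i j, Pair K (SX.e i) (SY.e j))
    (hYX : ∀ i j s, K.br (SY.e j) (SX.z1 i s) = 0 ∧ K.br (SY.e j) (SX.z2 i s) = 0)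
    (hXY : ∀ i j s, K.br (SX.e i) (SY.z1 j s) = 0 ∧ K.br (SX.e i) (SY.z2 j s) = 0)
    (i : SX.ιF) (j : SY.ιF) : Sp K (SX.e i) (SY.e j) (SX.ιs ⊕ SY.ιs) where
  m := Sum.elim (fun _ => 2) (fun _ => 0)
  n := Sum.elim (fun _ => 0) (fun _ => 2)
  r := Sum.elim (fun _ => 1 / 2) (fun _ => 0)
  s := Sum.elim (fun _ => 0) (fun _ => 1 / 2)
  k := fun _ => 2
  unim := by rintro (a | a) <;> norm_num
  k_ne := fun _ => by norm_num
  clB := by
    rintro (a | a)
    · have : (2 : ℝ) • ((1 / 2 : ℝ) • SX.e i + (0 : ℝ) • SY.e j) = SX.e i := by module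
      simp only [Sum.elim_inl]
      rw [this]
      exact (hpair i j).clX
    · have : (2 : ℝ) • ((0 : ℝ) • SX.e i + (1 / 2 : ℝ) • SY.e j) = SY.e j := by module
      simp only [Sum.elim_inr]
      rw [this]
      exact (hpair i j).clY
  clW := by
    rintro (a | a)
    · have := cl_comb' (hpair i j).brXY (hpair i j).clX (hpair i j).clY 0 (-2)
      simpa using this
    · have := cl_comb' (hpair i j).brXY (hpair i j).clX (hpair i j).clY 2 0
      simpa using this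
  Z1 := Sum.elim (SX.z1 i) (SY.z1 j)
  Z2 := Sum.elim (SX.z2 i) (SY.z2 j)
  brX1 := by
    rintro (a | a)
    · exact SX.h1 i a
    · simp only [Sum.elim_inr, zero_smul]
      exact (hXY i j a).1
  brX2 := by
    rintro (a | a)
    · exact SX.h2 i a
    · simp only [Sum.elim_inr, zero_smul, neg_zero]
      exact (hXY i j a).2
  brY1 := by
    rintro (a | a)
    · simp only [Sum.elim_inl, zero_smul]
      exact (hYX i j a).1
    · exact SY.h1 j a
  brY2 := by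
    rintro (a | a)
    · simp only [Sum.elim_inl, zero_smul, neg_zero]
      exact (hYX i j a).2
    · exact SY.h2 j a
  orth := by
    classical
    have hx := SX.orth i
    have hy := SY.orth j
    rw [orthonormal_iff_ite] at hx hy ⊢
    have k11 : ∀ a b, inner ℝ (SX.z1 i a) (SX.z1 i b) = if a = b then (1 : ℝ) else 0 :=
      fun a b => by simpa using hx (Sum.inl a) (Sum.inl b)
    have k12 : ∀ a b, inner ℝ (SX.z1 i a) (SX.z2 i b) = (0 : ℝ) :=
      fun a b => by simpa using hx (Sum.inl a) (Sum.inr b)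
    have k21 : ∀ a b, inner ℝ (SX.z2 i a) (SX.z1 i b) = (0 : ℝ) :=
      fun a b => by simpa using hx (Sum.inr a) (Sum.inl b)
    have k22 : ∀ a b, inner ℝ (SX.z2 i a) (SX.z2 i b) = if a = b then (1 : ℝ) else 0 :=
      fun a b => by simpa using hx (Sum.inr a) (Sum.inr b)
    have q11 : ∀ a b, inner ℝ (SY.z1 j a) (SY.z1 j b) = if a = b then (1 : ℝ) else 0 :=
      fun a b => by simpa using hy (Sum.inl a) (Sum.inl b)
    have q12 : ∀ a b, inner ℝ (SY.z1 j a) (SY.z2 j b) = (0 : ℝ) :=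
      fun a b => by simpa using hy (Sum.inl a) (Sum.inr b)
    have q21 : ∀ a b, inner ℝ (SY.z2 j a) (SY.z1 j b) = (0 : ℝ) :=
      fun a b => by simpa using hy (Sum.inr a) (Sum.inl b)
    have q22 : ∀ a b, inner ℝ (SY.z2 j a) (SY.z2 j b) = if a = b then (1 : ℝ) else 0 :=
      fun a b => by simpa using hy (Sum.inr a) (Sum.inr b)
    -- cross terms
    have cr : ∀ (u v w : 𝔤), K.br (SX.e i) u = (2 : ℝ) • v → K.br (SX.e i) w = 0 →
        inner ℝ v w = (0 : ℝ) := by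
      intro u v w hu hw
      have h1 := br_skew K (SX.e i) u w
      rw [hu, hw, inner_zero_right, real_inner_smul_left] at h1
      linarith
    have hz1 : ∀ a, K.br (SX.e i) (-(SX.z2 i a)) = (2 : ℝ) • SX.z1 i a := fun a => by
      rw [map_neg, SX.h2, neg_neg]
    have c11 : ∀ a b, inner ℝ (SX.z1 i a) (SY.z1 j b) = (0 : ℝ) := fun a b =>
      cr _ _ _ (hz1 a) (hXY i j b).1
    have c12 : ∀ a b, inner ℝ (SX.z1 i a) (SY.z2 j b) = (0 : ℝ) := fun a b =>
      cr _ _ _ (hz1 a) (hXY i j b).2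
    have c21 : ∀ a b, inner ℝ (SX.z2 i a) (SY.z1 j b) = (0 : ℝ) := fun a b =>
      cr _ _ _ (SX.h1 i a) (hXY i j b).1
    have c22 : ∀ a b, inner ℝ (SX.z2 i a) (SY.z2 j b) = (0 : ℝ) := fun a b =>
      cr _ _ _ (SX.h1 i a) (hXY i j b).2
    have d11 : ∀ a b, inner ℝ (SY.z1 j b) (SX.z1 i a) = (0 : ℝ) := fun a b => by
      rw [real_inner_comm]; exact c11 a b
    have d12 : ∀ a b, inner ℝ (SY.z2 j b) (SX.z1 i a) = (0 : ℝ) := fun a b => by
      rw [real_inner_comm]; exact c12 a b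
    have d21 : ∀ a b, inner ℝ (SY.z1 j b) (SX.z2 i a) = (0 : ℝ) := fun a b => by
      rw [real_inner_comm]; exact c21 a b
    have d22 : ∀ a b, inner ℝ (SY.z2 j b) (SX.z2 i a) = (0 : ℝ) := fun a b => by
      rw [real_inner_comm]; exact c22 a b
    rintro ((x | x) | (x | x)) ((y | y) | (y | y)) <;>
      simp [k11, k12, k21, k22, q11, q12, q21, q22, c11, c12, c21, c22, d11, d12, d21, d22,
        -inner_self_eq_norm_sq_to_K]

theorem assemble [FiniteDimensional ℝ 𝔤] (S : Pert K) (SX SY : Side K M)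
    (hI : ∀ (X A B : 𝔤) (μ : ℝ), K.Cl X → ‖A‖ = 1 → inner ℝ A B = (0 : ℝ) →
      K.br X A = μ • B → K.br X B = -(μ • A) → ∃ m : ℤ, μ = m)
    (hSQ : ∀ X Y A : 𝔤, K.br X A = 0 → K.br Y A = 0 →
      CG.sq A ∈ Submodule.span ℝ (CG.sq '' {C | K.Cl C ∧ K.br X C = 0 ∧ K.br Y C = 0}))
    (hpair : ∀ i j, Pair K (SX.e i) (SY.e j))
    (hYX : ∀ i j s, K.br (SY.e j) (SX.z1 i s) = 0 ∧ K.br (SY.e j) (SX.z2 i s) = 0)
    (hXY : ∀ i j s, K.br (SX.e i) (SY.z1 j s) = 0 ∧ K.br (SX.e i) (SY.z2 j s) = 0)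
    (compX : ∀ i j A B, Wt K (SX.e i) (SY.e j) 2 0 A B →
      (∀ s, inner ℝ A (SX.z1 i s) = (0 : ℝ) ∧ inner ℝ A (SX.z2 i s) = (0 : ℝ)) → A = 0)
    (compY : ∀ i j A B, Wt K (SY.e j) (SX.e i) 2 0 A B →
      (∀ s, inner ℝ A (SY.z1 j s) = (0 : ℝ) ∧ inner ℝ A (SY.z2 j s) = (0 : ℝ)) → A = 0) :
    False := by
  have hT : ∀ x : SX.ιF × SY.ιF, ∃ T : Datum2 K, ∀ h : 𝔤 →ₗ[ℝ] 𝔤 →ₗ[ℝ] K.𝒜,
      M.E (∑ a, T.F3 h a) ≤ ∑ a, M.E ((spRoots SX SY hpair hYX hXY x.1 x.2).G h a) := by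
    rintro ⟨i, j⟩
    have hp := hpair i j
    refine exists_datum2 K M (SX.e i) (SY.e j) hp.brXY hp.clX hp.clY hp.ind
      (spRoots SX SY hpair hYX hXY i j) ?_ (fun A h1 h2 => hSQ _ _ A h1 h2)
    intro μ ν A B hA hAB ho a1 a2 a3 a4 hne
    obtain ⟨m, rfl⟩ := hI _ A B μ hp.clX hA hAB a1 a2
    obtain ⟨n, rfl⟩ := hI _ A B ν hp.clY hA hAB a3 a4
    have hA0 : A ≠ 0 := by
      rintro rfl
      rw [norm_zero] at hA
      exact zero_ne_one hA
    rcases hp.good m n A B hA0 ⟨a1, a2, a3, a4⟩ with h | ⟨r, s, hrs⟩ | ⟨h1, h2, -⟩ | ⟨h1, h2, -⟩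
    · exfalso
      rcases hne with h' | h'
      · exact h' (by rw [h.1]; norm_num)
      · exact h' (by rw [h.2]; norm_num)
    · exact ⟨m, n, r, s, rfl, rfl, hrs⟩
    · exfalso
      subst h1
      have ho' : ∀ s, inner ℝ A (SX.z1 i s) = (0 : ℝ) ∧ inner ℝ A (SX.z2 i s) = (0 : ℝ) :=
        fun s => ho (Sum.inl s)
      rw [Int.cast_zero, zero_smul] at a3 a4
      rw [neg_zero] at a4
      rcases h2 with rfl | rfl
      · refine hA0 (compX i j A B ⟨?_, ?_, ?_, ?_⟩ ho')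
        · rw [a1]; norm_num
        · rw [a2]; norm_num
        · rw [a3, zero_smul]
        · rw [a4, zero_smul, neg_zero]
      · refine hA0 (compX i j A (-B) ⟨?_, ?_, ?_, ?_⟩ ho')
        · rw [a1]; push_cast; module
        · rw [map_neg, a2]; push_cast; module
        · rw [a3, zero_smul]
        · rw [map_neg, a4, zero_smul]
    · exfalso
      subst h1
      have ho' : ∀ s, inner ℝ A (SY.z1 j s) = (0 : ℝ) ∧ inner ℝ A (SY.z2 j s) = (0 : ℝ) :=
        fun s => ho (Sum.inr s)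
      rw [Int.cast_zero, zero_smul] at a1 a2
      rw [neg_zero] at a2
      rcases h2 with rfl | rfl
      · refine hA0 (compY i j A B ⟨?_, ?_, ?_, ?_⟩ ho')
        · rw [a3]; norm_num
        · rw [a4]; norm_num
        · rw [a1, zero_smul]
        · rw [a2, zero_smul, neg_zero]
      · refine hA0 (compY i j A (-B) ⟨?_, ?_, ?_, ?_⟩ ho')
        · rw [a3]; push_cast; module
        · rw [map_neg, a4]; push_cast; module
        · rw [a1, zero_smul]
        · rw [map_neg, a2, zero_smul]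
  choose T hT using hT
  refine contra2 M S T fun h hs => ?_
  refine (Finset.sum_le_sum fun x _ => hT x h).trans ?_
  have hG1 : ∀ i j s, (spRoots SX SY hpair hYX hXY i j).G h (Sum.inl s) =
      G3 K ((1 / 2 : ℝ) • SX.e i) ((-2 : ℝ) • SY.e j)
        (K.eta h ((1 / 2 : ℝ) • SX.e i) ((-2 : ℝ) • SY.e j) (SX.z1 i s))
        (K.eta h ((1 / 2 : ℝ) • SX.e i) ((-2 : ℝ) • SY.e j) (SX.z2 i s)) := by
    intro i j s
    have e1 : (1 / 2 : ℝ) • SX.e i + (0 : ℝ) • SY.e j = (1 / 2 : ℝ) • SX.e i := by module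
    have e2 : (0 : ℝ) • SX.e i + (-(2 : ℝ)) • SY.e j = (-2 : ℝ) • SY.e j := by module
    simp only [Sp.G, spRoots, Sum.elim_inl]
    rw [e1, e2]
  have hG2 : ∀ i j s, (spRoots SX SY hpair hYX hXY i j).G h (Sum.inr s) =
      G3 K ((1 / 2 : ℝ) • SY.e j) ((2 : ℝ) • SX.e i)
        (K.eta h ((1 / 2 : ℝ) • SY.e j) ((2 : ℝ) • SX.e i) (SY.z1 j s))
        (K.eta h ((1 / 2 : ℝ) • SY.e j) ((2 : ℝ) • SX.e i) (SY.z2 j s)) := by
    intro i j s
    have e1 : (0 : ℝ) • SX.e i + (1 / 2 : ℝ) • SY.e j = (1 / 2 : ℝ) • SY.e j := by module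
    have e2 : (2 : ℝ) • SX.e i + (-(0 : ℝ)) • SY.e j = (2 : ℝ) • SX.e i := by module
    simp only [Sp.G, spRoots, Sum.elim_inr]
    rw [e1, e2]
  rw [Fintype.sum_prod_type]
  simp only [Fintype.sum_sum_type, hG1, hG2, Finset.sum_add_distrib]
  have s1 : ∑ j, ∑ i, ∑ s, M.E (G3 K ((1 / 2 : ℝ) • SX.e i) ((-2 : ℝ) • SY.e j)
        (K.eta h ((1 / 2 : ℝ) • SX.e i) ((-2 : ℝ) • SY.e j) (SX.z1 i s))
        (K.eta h ((1 / 2 : ℝ) • SX.e i) ((-2 : ℝ) • SY.e j) (SX.z2 i s))) ≤ 0 := by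
    refine Finset.sum_nonpos fun j _ => ?_
    refine SX.avg ((-2 : ℝ) • SY.e j) ?_ ?_ ?_ h hs
    · obtain ⟨i⟩ := SX.nF
      have := cl_comb' (hpair i j).brXY (hpair i j).clX (hpair i j).clY 0 (-2)
      simpa using this
    · intro i
      rw [map_smul, LinearMap.smul_apply, K.br_anti, (hpair i j).brXY, neg_zero, smul_zero]
    · intro i s
      rw [map_smul, LinearMap.smul_apply, LinearMap.smul_apply, (hYX i j s).1, (hYX i j s).2,
        smul_zero]
      exact ⟨rfl, rfl⟩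
  have s2 : ∑ i, ∑ j, ∑ s, M.E (G3 K ((1 / 2 : ℝ) • SY.e j) ((2 : ℝ) • SX.e i)
        (K.eta h ((1 / 2 : ℝ) • SY.e j) ((2 : ℝ) • SX.e i) (SY.z1 j s))
        (K.eta h ((1 / 2 : ℝ) • SY.e j) ((2 : ℝ) • SX.e i) (SY.z2 j s))) ≤ 0 := by
    refine Finset.sum_nonpos fun i _ => ?_
    refine SY.avg ((2 : ℝ) • SX.e i) ?_ ?_ ?_ h hs
    · obtain ⟨j⟩ := SY.nF
      have := cl_comb' (hpair i j).brXY (hpair i j).clX (hpair i j).clY 2 0
      simpa using this
    · intro j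
      rw [map_smul, LinearMap.smul_apply, (hpair i j).brXY, smul_zero]
    · intro j s
      rw [map_smul, LinearMap.smul_apply, LinearMap.smul_apply, (hXY i j s).1, (hXY i j s).2,
        smul_zero]
      exact ⟨rfl, rfl⟩
  rw [Finset.sum_comm] at s1
  exact add_nonpos s1 s2

end Pool.Agent.TH109.CG2
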